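import Mathlib

/-!
# Self-similar tendril function (MP_ccb05f_an)

`kap c t` is a 1D cut-off, `bA`, `bB` the two base functions, `sg j t` the two clamped
expanding branches, `ph m s t` the finite stages.
-/

noncomputable section

namespace Pool.Agent.W2helper13.CE

open Set

/-- the two centres -/
def cen (j : Fin 2) : ℝ := if j = 0 then 1/4 else 3/4

/-- the digit as a real number -/
def dg (j : Fin 2) : ℝ := if j = 0 then 0 else 1

/-- the cut-off around `c`: `1` for `|t-c| ≤ 1/16`, `0` for `|t-c| ≥ 1/8`. -/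
def kap (c t : ℝ) : ℝ := max 0 (min 1 (2 - 16 * |t - c|))

def bA (t : ℝ) : ℝ := kap (1/4) t + kap (3/4) t

def bB (t : ℝ) : ℝ := kap (3/4) t

/-- clamped expanding branch -/
def sg (j : Fin 2) (t : ℝ) : ℝ := max 0 (min 1 (8 * (t - cen j) + 1/2))

/-- base function -/
def bs (s t : ℝ) : ℝ := (1/4) * min (bB s) (bA t)

/-- the stages -/
def ph : ℕ → ℝ → ℝ → ℝ
  | 0 => fun _ _ => 0
  | (m+1) => fun s t => bs s t + (1/2) * ∑ i : Fin 2, ∑ j : Fin 2, ph m (sg i s) (sg j t)

/-- inner interval number `j` -/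
def inn (j : Fin 2) : Set ℝ := {t | |t - cen j| < 1/16}

lemma kap_nonneg (c t : ℝ) : 0 ≤ kap c t := le_max_left _ _

lemma kap_le_one (c t : ℝ) : kap c t ≤ 1 := max_le zero_le_one (min_le_left _ _)

lemma kap_eq_zero {c t : ℝ} (h : 1/8 ≤ |t - c|) : kap c t = 0 := by
  unfold kap
  apply max_eq_left
  exact (min_le_right _ _).trans (by linarith)

lemma kap_eq_one {c t : ℝ} (h : |t - c| ≤ 1/16) : kap c t = 1 := by
  unfold kap
  rw [min_eq_left (by linarith)]
  exact max_eq_right zero_le_one

lemma continuous_kap (c : ℝ) : Continuous (kap c) := by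
  unfold kap; fun_prop

lemma continuous_bA : Continuous bA := (continuous_kap _).add (continuous_kap _)

lemma continuous_bB : Continuous bB := continuous_kap _

lemma continuous_sg (j : Fin 2) : Continuous (sg j) := by
  unfold sg; fun_prop

lemma continuous_bs : Continuous (fun p : ℝ × ℝ => bs p.1 p.2) := by
  unfold bs
  have h1 := continuous_bA
  have h2 := continuous_bB
  fun_prop

lemma continuous_ph (m : ℕ) : Continuous (fun p : ℝ × ℝ => ph m p.1 p.2) := by
  induction m with
  | zero => simp only [ph]; exact continuous_const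
  | succ m ih =>
    simp only [ph]
    apply continuous_bs.add
    apply continuous_const.mul
    apply continuous_finsetSum
    intro i _
    apply continuous_finsetSum
    intro j _
    have h1 : Continuous (fun p : ℝ × ℝ => (sg i p.1, sg j p.2)) :=
      ((continuous_sg i).comp continuous_fst).prodMk ((continuous_sg j).comp continuous_snd)
    exact ih.comp h1

lemma bB_nonneg (t : ℝ) : 0 ≤ bB t := kap_nonneg _ _
lemma bB_le_one (t : ℝ) : bB t ≤ 1 := kap_le_one _ _

lemma bA_cases (t : ℝ) : bA t = kap (1/4) t ∧ kap (3/4) t = 0 ∨ bA t = kap (3/4) t ∧ kap (1/4) t = 0 := by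
  rcases le_total t (1/2) with h | h
  · left
    have : kap (3/4) t = 0 := kap_eq_zero (by rw [abs_sub_comm]; exact le_trans (by linarith) (le_abs_self _))
    exact ⟨by unfold bA; rw [this, add_zero], this⟩
  · right
    have : kap (1/4) t = 0 := kap_eq_zero (le_trans (by linarith) (le_abs_self _))
    exact ⟨by unfold bA; rw [this, zero_add], this⟩

lemma bA_nonneg (t : ℝ) : 0 ≤ bA t := add_nonneg (kap_nonneg _ _) (kap_nonneg _ _)
lemma bA_le_one (t : ℝ) : bA t ≤ 1 := by
  rcases bA_cases t with ⟨h, _⟩ | ⟨h, _⟩ <;> rw [h] <;> exact kap_le_one _ _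

lemma bs_nonneg (s t : ℝ) : 0 ≤ bs s t := by
  unfold bs
  have := le_min (bB_nonneg s) (bA_nonneg t)
  linarith

lemma bs_le (s t : ℝ) : bs s t ≤ 1/4 := by
  unfold bs
  have : min (bB s) (bA t) ≤ 1 := (min_le_left _ _).trans (bB_le_one s)
  linarith

lemma sg_mem (j : Fin 2) (t : ℝ) : sg j t ∈ Icc (0:ℝ) 1 :=
  ⟨le_max_left _ _, max_le zero_le_one (min_le_left _ _)⟩

lemma sg_of_inn {j : Fin 2} {t : ℝ} (h : t ∈ inn j) : sg j t = 8 * (t - cen j) + 1/2 := by
  simp only [inn, mem_ofPred_eq, abs_lt] at h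
  unfold sg
  rw [min_eq_right (by linarith), max_eq_right (by linarith)]

lemma sg_of_not_inn {j : Fin 2} {t : ℝ} (h : t ∉ inn j) : sg j t = 0 ∨ sg j t = 1 := by
  simp only [inn, mem_ofPred_eq, not_lt] at h
  unfold sg
  rcases le_abs.mp h with h | h
  · right
    rw [min_eq_left (by linarith)]
    exact max_eq_right zero_le_one
  · left
    apply max_eq_left
    exact (min_le_right _ _).trans (by linarith)

lemma inn_disj {t : ℝ} {i j : Fin 2} (hi : t ∈ inn i) (hj : t ∈ inn j) : i = j := by
  simp only [inn, mem_ofPred_eq, abs_lt, cen] at hi hj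
  fin_cases i <;> fin_cases j <;> simp at hi hj ⊢ <;> linarith

lemma bB_of_inn {j : Fin 2} {t : ℝ} (h : t ∈ inn j) : bB t = dg j := by
  unfold bB dg
  simp only [inn, mem_ofPred_eq, cen] at h
  fin_cases j
  · simp at h ⊢
    rw [abs_lt] at h
    exact kap_eq_zero (by rw [abs_sub_comm]; exact le_trans (by linarith) (le_abs_self _))
  · simp at h ⊢
    exact kap_eq_one (by linarith)

lemma bA_of_inn {j : Fin 2} {t : ℝ} (h : t ∈ inn j) : bA t = 1 := by
  simp only [inn, mem_ofPred_eq, cen] at h
  unfold bA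
  fin_cases j
  · simp at h
    have h' := h
    rw [abs_lt] at h
    have h1 : kap (3/4) t = 0 := kap_eq_zero (by rw [abs_sub_comm]; exact le_trans (by linarith) (le_abs_self _))
    have h2 : kap (1/4) t = 1 := kap_eq_one (by rw [one_div]; linarith)
    rw [h1, h2]; norm_num
  · simp at h
    have h' := h
    rw [abs_lt] at h
    have h1 : kap (1/4) t = 0 := kap_eq_zero (le_trans (by linarith) (le_abs_self _))
    have h2 : kap (3/4) t = 1 := kap_eq_one (by linarith)
    rw [h1, h2]; norm_num

/-- values at the boundary -/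
lemma bs_bdry {s t : ℝ} (h : s = 0 ∨ s = 1 ∨ t = 0 ∨ t = 1) : bs s t = 0 := by
  have e0 : bB 0 = 0 := kap_eq_zero (by norm_num [abs_of_nonneg, abs_of_nonpos])
  have e1 : bB 1 = 0 := kap_eq_zero (by norm_num)
  have a0 : bA 0 = 0 := by
    unfold bA
    rw [kap_eq_zero (by norm_num), kap_eq_zero (by norm_num)]; norm_num
  have a1 : bA 1 = 0 := by
    unfold bA
    rw [kap_eq_zero (by norm_num), kap_eq_zero (by norm_num)]; norm_num
  unfold bs
  rcases h with h | h | h | h <;> subst h
  · rw [e0, min_eq_left (bA_nonneg _)]; norm_num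
  · rw [e1, min_eq_left (bA_nonneg _)]; norm_num
  · rw [a0, min_eq_right (bB_nonneg _)]; norm_num
  · rw [a1, min_eq_right (bB_nonneg _)]; norm_num

lemma sg_zero (j : Fin 2) : sg j 0 = 0 := by
  unfold sg cen
  apply max_eq_left
  refine (min_le_right _ _).trans ?_
  fin_cases j <;> norm_num

lemma sg_one (j : Fin 2) : sg j 1 = 1 := by
  unfold sg cen
  rw [min_eq_left, max_eq_right zero_le_one]
  fin_cases j <;> norm_num

lemma ph_bdry (m : ℕ) : ∀ {s t : ℝ}, (s = 0 ∨ s = 1 ∨ t = 0 ∨ t = 1) → ph m s t = 0 := by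
  induction m with
  | zero => intro s t _; rfl
  | succ m ih =>
    intro s t h
    simp only [ph]
    rw [bs_bdry h, zero_add]
    have : ∀ i j : Fin 2, ph m (sg i s) (sg j t) = 0 := by
      intro i j
      apply ih
      rcases h with h | h | h | h <;> subst h
      · left; exact sg_zero i
      · right; left; exact sg_one i
      · right; right; left; exact sg_zero j
      · right; right; right; exact sg_one j
    simp [this]

/-- functional equation on the inner squares -/
lemma ph_inn (m : ℕ) {i j : Fin 2} {s t : ℝ} (hs : s ∈ inn i) (ht : t ∈ inn j) :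
    ph (m+1) s t = dg i / 4 + (1/2) * ph m (8 * (s - cen i) + 1/2) (8 * (t - cen j) + 1/2) := by
  simp only [ph]
  have h1 : ∀ i' j' : Fin 2, (i', j') ≠ (i, j) → ph m (sg i' s) (sg j' t) = 0 := by
    intro i' j' hne
    apply ph_bdry
    by_cases hi : i' = i
    · have hj : j' ≠ j := fun h => hne (by rw [hi, h])
      have : t ∉ inn j' := fun h => hj (inn_disj h ht)
      rcases sg_of_not_inn this with h | h
      · right; right; left; exact h
      · right; right; right; exact h
    · have : s ∉ inn i' := fun h => hi (inn_disj h hs)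
      rcases sg_of_not_inn this with h | h
      · left; exact h
      · right; left; exact h
  have h2 : ∑ i' : Fin 2, ∑ j' : Fin 2, ph m (sg i' s) (sg j' t) = ph m (sg i s) (sg j t) := by
    rw [Finset.sum_eq_single i, Finset.sum_eq_single j]
    · intro j' _ hj; exact h1 i j' (fun h => hj (Prod.ext_iff.mp h).2)
    · intro h; exact absurd (Finset.mem_univ j) h
    · intro i' _ hi
      apply Finset.sum_eq_zero
      intro j' _
      exact h1 i' j' (fun h => hi (Prod.ext_iff.mp h).1)
    · intro h; exact absurd (Finset.mem_univ i) h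
  rw [h2, sg_of_inn hs, sg_of_inn ht]
  have h3 : bs s t = dg i / 4 := by
    unfold bs
    rw [bB_of_inn hs, bA_of_inn ht]
    have : dg i ≤ 1 := by unfold dg; split_ifs <;> norm_num
    rw [min_eq_left this]; ring
  rw [h3]

/-- off the inner squares -/
lemma ph_off (m : ℕ) {s t : ℝ} (h : (∀ i, s ∉ inn i) ∨ (∀ j, t ∉ inn j)) :
    ph (m+1) s t = bs s t := by
  simp only [ph]
  have h1 : ∀ i j : Fin 2, ph m (sg i s) (sg j t) = 0 := by
    intro i j
    apply ph_bdry
    rcases h with h | h
    · rcases sg_of_not_inn (h i) with h | h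
      · left; exact h
      · right; left; exact h
    · rcases sg_of_not_inn (h j) with h | h
      · right; right; left; exact h
      · right; right; right; exact h
  simp [h1]

lemma dg_nonneg (i : Fin 2) : 0 ≤ dg i := by unfold dg; split_ifs <;> norm_num
lemma dg_le_one (i : Fin 2) : dg i ≤ 1 := by unfold dg; split_ifs <;> norm_num

lemma inn_cases (s t : ℝ) : (∃ i j, s ∈ inn i ∧ t ∈ inn j) ∨ ((∀ i, s ∉ inn i) ∨ (∀ j, t ∉ inn j)) := by
  by_cases h1 : ∃ i, s ∈ inn i
  · by_cases h2 : ∃ j, t ∈ inn j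
    · obtain ⟨i, hi⟩ := h1
      obtain ⟨j, hj⟩ := h2
      exact Or.inl ⟨i, j, hi, hj⟩
    · push Not at h2
      exact Or.inr (Or.inr h2)
  · push Not at h1
    exact Or.inr (Or.inl h1)

lemma ph_nonneg (m : ℕ) : ∀ s t : ℝ, 0 ≤ ph m s t := by
  induction m with
  | zero => intro s t; exact le_refl _
  | succ m ih =>
    intro s t
    rcases inn_cases s t with ⟨i, j, hi, hj⟩ | h
    · rw [ph_inn m hi hj]
      have := dg_nonneg i
      have := ih (8 * (s - cen i) + 1/2) (8 * (t - cen j) + 1/2)
      linarith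
    · rw [ph_off m h]; exact bs_nonneg _ _

lemma ph_le (m : ℕ) : ∀ s t : ℝ, ph m s t ≤ 1/2 := by
  induction m with
  | zero => intro s t; show (0:ℝ) ≤ 1/2; norm_num
  | succ m ih =>
    intro s t
    rcases inn_cases s t with ⟨i, j, hi, hj⟩ | h
    · rw [ph_inn m hi hj]
      have := dg_le_one i
      have := ih (8 * (s - cen i) + 1/2) (8 * (t - cen j) + 1/2)
      linarith
    · rw [ph_off m h]
      have := bs_le s t
      linarith

lemma ph_diff (m : ℕ) : ∀ s t : ℝ, |ph (m+1) s t - ph m s t| ≤ (1/4) * (1/2)^m := by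
  induction m with
  | zero =>
    intro s t
    have h1 : ph 1 s t = bs s t + (1/2) * ∑ i : Fin 2, ∑ j : Fin 2, (0:ℝ) := rfl
    have h2 : ph 0 s t = 0 := rfl
    rw [h1, h2]
    simp only [Finset.sum_const_zero, mul_zero, add_zero, sub_zero, pow_zero, mul_one]
    rw [abs_of_nonneg (bs_nonneg _ _)]
    exact bs_le _ _
  | succ m ih =>
    intro s t
    rcases inn_cases s t with ⟨i, j, hi, hj⟩ | h
    · rw [ph_inn (m+1) hi hj, ph_inn m hi hj]
      have h1 := ih (8 * (s - cen i) + 1/2) (8 * (t - cen j) + 1/2)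
      have h2 : dg i / 4 + (1/2) * ph (m+1) (8 * (s - cen i) + 1/2) (8 * (t - cen j) + 1/2)
          - (dg i / 4 + (1/2) * ph m (8 * (s - cen i) + 1/2) (8 * (t - cen j) + 1/2))
          = (1/2) * (ph (m+1) (8 * (s - cen i) + 1/2) (8 * (t - cen j) + 1/2)
            - ph m (8 * (s - cen i) + 1/2) (8 * (t - cen j) + 1/2)) := by ring
      rw [h2, abs_mul, abs_of_pos (by norm_num : (0:ℝ) < 1/2), pow_succ]
      linarith
    · rw [ph_off (m+1) h, ph_off m h, sub_self, abs_zero]
      positivity

/-- the level sets: `V m` is the union of the `4^m` (open) inner squares of generation `m`. -/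
def V : ℕ → ℝ → ℝ → Prop
  | 0 => fun _ _ => True
  | (m+1) => fun s t => ∃ i j : Fin 2, s ∈ inn i ∧ t ∈ inn j ∧
      V m (8 * (s - cen i) + 1/2) (8 * (t - cen j) + 1/2)

lemma ph_stable (m : ℕ) : ∀ (k : ℕ) {s t : ℝ}, ¬ V m s t → ph (m+k) s t = ph m s t := by
  induction m with
  | zero => intro k s t h; exact absurd trivial h
  | succ m ih =>
    intro k s t h
    have e : m + 1 + k = (m + k) + 1 := by ring
    rw [e]
    rcases inn_cases s t with ⟨i, j, hi, hj⟩ | h'
    · rw [ph_inn (m+k) hi hj, ph_inn m hi hj]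
      have : ¬ V m (8 * (s - cen i) + 1/2) (8 * (t - cen j) + 1/2) := by
        intro hV
        exact h ⟨i, j, hi, hj, hV⟩
      rw [ih k this]
    · rw [ph_off (m+k) h', ph_off m h']

lemma V_antitone (m : ℕ) : ∀ {s t : ℝ}, V (m+1) s t → V m s t := by
  induction m with
  | zero => intro s t _; trivial
  | succ m ih =>
    intro s t h
    obtain ⟨i, j, hi, hj, hV⟩ := h
    exact ⟨i, j, hi, hj, ih hV⟩

end Pool.Agent.W2helper13.CE
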