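import Pool.Agent.W2helper13.CE.Low

/-!
# The graph of the limit has finite measure; the stages are bi-Lipschitz
-/

noncomputable section

namespace Pool.Agent.W2helper13.CE

open Set Filter Topology MeasureTheory
open scoped ENNReal NNReal MeasureTheory

lemma ph_mono (m : ℕ) : ∀ {s t s' t' : ℝ}, V m s t → V m s' t' → s ≤ s' → ph m s t ≤ ph m s' t' := by
  induction m with
  | zero => intro s t s' t' _ _ _; exact le_refl _
  | succ m ih =>
    rintro s t s' t' ⟨i, j, hi, hj, hV⟩ ⟨i', j', hi', hj', hV'⟩ hs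
    rw [ph_inn m hi hj, ph_inn m hi' hj']
    by_cases h : i = i'
    · subst h
      have := ih hV hV' (by linarith)
      linarith
    · have h1 : i = 0 ∧ i' = 1 := by
        simp only [inn, mem_ofPred_eq, abs_lt, cen] at hi hi'
        fin_cases i <;> fin_cases i' <;> simp at h hi hi' ⊢
        linarith
      obtain ⟨rfl, rfl⟩ := h1
      have e0 : dg 0 = 0 := by unfold dg; simp
      have e1 : dg 1 = 1 := by unfold dg; simp
      rw [e0, e1]
      have h2 := ph_le m (8 * (s - cen 0) + 1/2) (8 * (t - cen j) + 1/2)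
      have h3 := ph_nonneg m (8 * (s' - cen 1) + 1/2) (8 * (t' - cen j') + 1/2)
      linarith

lemma phi_mono {s t s' t' : ℝ} (h : ∀ m, V m s t) (h' : ∀ m, V m s' t') (hs : s ≤ s') :
    phi s t ≤ phi s' t' :=
  le_of_tendsto_of_tendsto' (tendsto_phi s t) (tendsto_phi s' t') (fun m => ph_mono m (h m) (h' m) hs)

lemma same_sign {s t s' t' : ℝ} (h : ∀ m, V m s t) (h' : ∀ m, V m s' t') :
    |s - s'| ≤ |(s + phi s t) - (s' + phi s' t')| ∧
    |phi s t - phi s' t'| ≤ |(s + phi s t) - (s' + phi s' t')| := by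
  rcases le_total s s' with hs | hs
  · have h1 := phi_mono h h' hs
    rw [abs_of_nonpos (by linarith : s - s' ≤ 0), abs_of_nonpos (by linarith : phi s t - phi s' t' ≤ 0),
      abs_of_nonpos (by linarith : s + phi s t - (s' + phi s' t') ≤ 0)]
    constructor <;> linarith
  · have h1 := phi_mono h' h hs
    rw [abs_of_nonneg (by linarith : 0 ≤ s - s'), abs_of_nonneg (by linarith : 0 ≤ phi s t - phi s' t'),
      abs_of_nonneg (by linarith : 0 ≤ s + phi s t - (s' + phi s' t'))]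
    constructor <;> linarith

lemma cf_lip {d : ℕ} (I : Ix d) {a b a' b' D : ℝ} (ha : |a - a'| ≤ D) (hb : |b - b'| ≤ D) (i : Fin d) :
    |cf I a b i - cf I a' b' i| ≤ D := by
  unfold cf
  split_ifs
  · exact ha
  · exact hb
  · rw [sub_self, abs_zero]; exact (abs_nonneg _).trans ha

lemma coord_lip {d : ℕ} (I : Ix d) {x x' : Fin d → ℝ} {a b a' b' D : ℝ}
    (hx' : ∀ i, x' i ∈ Icc (0:ℝ) 1) (ha1 : a ∈ Icc (0:ℝ) (1/2)) (hb1 : b ∈ Icc (0:ℝ) (1/2))
    (hxx : ∀ i, |x i - x' i| ≤ D) (ha : |a - a'| ≤ D) (hb : |b - b'| ≤ D) (i : Fin d) :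
    |hh (cf I a b i) (x i) - hh (cf I a' b' i) (x' i)| ≤ 3 * D := by
  apply hh_lip (hxx i) (cf_lip I ha hb i)
  · have := cf_mem I ha1 hb1 i
    rw [abs_of_nonneg this.1]; linarith [this.2]
  · left
    obtain ⟨t0, t1, _⟩ := tent_mem (hx' i)
    rw [abs_of_nonneg t0]; linarith

lemma mk_dist {d : ℕ} (I : Ix d) {x x' : Fin d → ℝ} {a b a' b' D : ℝ}
    (hx' : ∀ i, x' i ∈ Icc (0:ℝ) 1) (ha1 : a ∈ Icc (0:ℝ) (1/2)) (hb1 : b ∈ Icc (0:ℝ) (1/2))
    (hxx : ∀ i, |x i - x' i| ≤ D) (ha : |a - a'| ≤ D) (hb : |b - b'| ≤ D) :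
    dist (mk I x a b) (mk I x' a' b') ≤ CC d * (3 * D) := by
  have hD : 0 ≤ D := (abs_nonneg _).trans ha
  refine ((PiLp.lipschitzWith_toLp 2 (fun _ : Fin d ⊕ Fin d => ℝ)).dist_le_mul _ _).trans ?_
  apply mul_le_mul_of_nonneg_left _ (NNReal.coe_nonneg _)
  rw [dist_pi_le_iff (by positivity)]
  intro i
  rcases i with i | i
  · simp only [Sum.elim_inl, Real.dist_eq]
    have := hxx i
    linarith
  · simp only [Sum.elim_inr, Real.dist_eq]
    exact coord_lip I hx' ha1 hb1 hxx ha hb i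

/-- good points: over the Cantor set -/
def Good {d : ℕ} (I : Ix d) (x : Fin d → ℝ) : Prop :=
  (∀ i, x i ∈ Icc (0:ℝ) 1) ∧ (∀ m, V m (x I.i0) (x I.i1))

/-- parametrisation -/
def qq {d : ℕ} (I : Ix d) (x : Fin d → ℝ) : Fin d → ℝ :=
  fun i => if i = I.i0 then x I.i0 + phi (x I.i0) (x I.i1)
    else if i = I.i1 then x I.i1 + phi (x I.i1) (x I.i0) else x i

lemma qq_dist {d : ℕ} (I : Ix d) {x x' : Fin d → ℝ} (h : Good I x) (h' : Good I x') :
    dist (mk I x (phi (x I.i0) (x I.i1)) (phi (x I.i1) (x I.i0)))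
      (mk I x' (phi (x' I.i0) (x' I.i1)) (phi (x' I.i1) (x' I.i0))) ≤ CC d * (3 * dist (qq I x) (qq I x')) := by
  have hk : ∀ i, |qq I x i - qq I x' i| ≤ dist (qq I x) (qq I x') := fun i => by
    rw [← Real.dist_eq]; exact dist_le_pi_dist _ _ i
  have e0 : ∀ y : Fin d → ℝ, qq I y I.i0 = y I.i0 + phi (y I.i0) (y I.i1) := fun y => by
    unfold qq; rw [if_pos rfl]
  have e1 : ∀ y : Fin d → ℝ, qq I y I.i1 = y I.i1 + phi (y I.i1) (y I.i0) := fun y => by
    unfold qq; rw [if_neg I.h01.symm, if_pos rfl]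
  have s0 := same_sign h.2 h'.2
  have s1 := same_sign (fun m => V_symm m (h.2 m)) (fun m => V_symm m (h'.2 m))
  have k0 := hk I.i0
  have k1 := hk I.i1
  rw [e0, e0] at k0
  rw [e1, e1] at k1
  apply mk_dist I h'.1 ⟨phi_nonneg _ _, phi_le _ _⟩ ⟨phi_nonneg _ _, phi_le _ _⟩
  · intro i
    by_cases hi0 : i = I.i0
    · rw [hi0]; exact s0.1.trans k0
    · by_cases hi1 : i = I.i1
      · rw [hi1]; exact s1.1.trans k1
      · have := hk i
        unfold qq at this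
        simp only [if_neg hi0, if_neg hi1] at this
        exact this
  · exact s0.2.trans k0
  · exact s1.2.trans k1

lemma Ec_fin {d : ℕ} (I : Ix d) : μH[(d:ℝ)] (Ec I) < ⊤ := by
  classical
  set Q : Set (Fin d → ℝ) := {q | ∃ x, Good I x ∧ q = qq I x} with hQ
  set H : (Fin d → ℝ) → EuclideanSpace ℝ (Fin d ⊕ Fin d) := fun q =>
    if h : ∃ x, Good I x ∧ q = qq I x then
      mk I h.choose (phi (h.choose I.i0) (h.choose I.i1)) (phi (h.choose I.i1) (h.choose I.i0))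
    else 0 with hH
  have hval : ∀ q ∈ Q, ∃ x, Good I x ∧ q = qq I x ∧
      H q = mk I x (phi (x I.i0) (x I.i1)) (phi (x I.i1) (x I.i0)) := by
    intro q hq
    have hq' : ∃ x, Good I x ∧ q = qq I x := hq
    refine ⟨hq'.choose, hq'.choose_spec.1, hq'.choose_spec.2, ?_⟩
    simp only [hH, dif_pos hq']
  have hlip : LipschitzOnWith (CC d * 3) H Q := by
    apply LipschitzOnWith.of_dist_le_mul
    intro q hq q' hq'
    obtain ⟨x, hx, e, eH⟩ := hval q hq
    obtain ⟨x', hx', e', eH'⟩ := hval q' hq'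
    rw [eH, eH']
    refine (qq_dist I hx hx').trans ?_
    rw [← e, ← e', NNReal.coe_mul, NNReal.coe_ofNat, mul_assoc]
  have hsub : Ec I ⊆ H '' Q := by
    rintro z ⟨x, hx, hV, rfl⟩
    have hg : Good I x := ⟨hx, hV⟩
    refine ⟨qq I x, ⟨x, hg, rfl⟩, ?_⟩
    obtain ⟨x', hx', e, eH⟩ := hval (qq I x) ⟨x, hg, rfl⟩
    rw [eH]
    have := qq_dist I hx' hg
    rw [← e, dist_self, mul_zero, mul_zero] at this
    exact dist_le_zero.mp this
  have h1 := hlip.hausdorffMeasure_image_le (d := (d:ℝ)) (Nat.cast_nonneg d)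
  have h2 : (μH[(d:ℝ)] : Measure (Fin d → ℝ)) Q < ⊤ := by
    have h := hausdorffMeasure_pi_real (ι := Fin d)
    rw [Fintype.card_fin] at h
    rw [h]
    apply Bornology.IsBounded.measure_lt_top
    apply (Metric.isBounded_Icc (0 : Fin d → ℝ) (fun _ => 3/2)).subset
    rintro q ⟨x, hx, rfl⟩
    have key : ∀ s t : ℝ, s ∈ Icc (0:ℝ) 1 → 0 ≤ s + phi s t ∧ s + phi s t ≤ 3/2 := by
      intro s t hs
      have := phi_nonneg s t
      have := phi_le s t
      constructor <;> linarith [hs.1, hs.2]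
    constructor
    · intro i
      unfold qq
      simp only [Pi.zero_apply]
      split_ifs
      · exact (key _ _ (hx.1 _)).1
      · exact (key _ _ (hx.1 _)).1
      · exact (hx.1 i).1
    · intro i
      unfold qq
      simp only
      split_ifs
      · exact (key _ _ (hx.1 _)).2
      · exact (key _ _ (hx.1 _)).2
      · linarith [(hx.1 i).2]
  refine (measure_mono hsub).trans_lt (h1.trans_lt ?_)
  exact ENNReal.mul_lt_top (lt_top_iff_ne_top.mpr (KK_ne_top d)) h2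

lemma graph_fin {d : ℕ} (I : Ix d) : μH[(d:ℝ)] (graphSet (cubeHomeo I Pi')) < ⊤ := by
  have hsub : graphSet (cubeHomeo I Pi') ⊆ (⋃ m, Em I m) ∪ Ec I := by
    intro z hz
    rw [mem_graph] at hz
    obtain ⟨x, hx, rfl⟩ := hz
    by_cases hV : ∀ m, V m (x I.i0) (x I.i1)
    · right
      exact ⟨x, hx, hV, rfl⟩
    · left
      push Not at hV
      obtain ⟨m, hm⟩ := hV
      rw [mem_iUnion]
      exact ⟨m, x, hx, hm, rfl⟩
  refine (measure_mono hsub).trans_lt ((measure_union_le _ _).trans_lt ?_)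
  apply ENNReal.add_lt_top.mpr
  refine ⟨(Einf_meas I).trans_lt ?_, Ec_fin I⟩
  exact ENNReal.mul_lt_top (lt_top_iff_ne_top.mpr (KK_ne_top d)) ENNReal.ofReal_lt_top

/-! ## bi-Lipschitz stages -/

lemma clamp_lip (a b : ℝ) : |max 0 (min 1 a) - max 0 (min 1 b)| ≤ |a - b| := by
  have h1 := abs_max_sub_max_le_max 0 (min 1 a) 0 (min 1 b)
  have h2 := abs_min_sub_min_le_max 1 a 1 b
  have e0 : |(0:ℝ) - 0| = 0 := by simp
  have e1 : |(1:ℝ) - 1| = 0 := by simp
  rw [e0, max_eq_right (abs_nonneg (min 1 a - min 1 b))] at h1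
  rw [e1, max_eq_right (abs_nonneg (a - b))] at h2
  exact h1.trans h2

lemma kap_lip (c s t : ℝ) : |kap c s - kap c t| ≤ 16 * |s - t| := by
  unfold kap
  have h1 := clamp_lip (2 - 16 * |s - c|) (2 - 16 * |t - c|)
  have h3 : |2 - 16 * |s - c| - (2 - 16 * |t - c|)| = 16 * |(|s - c| - |t - c|)| := by
    rw [show 2 - 16 * |s - c| - (2 - 16 * |t - c|) = (-16) * (|s - c| - |t - c|) by ring, abs_mul]
    norm_num
  have h4 := abs_abs_sub_abs_le_abs_sub (s - c) (t - c)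
  rw [show s - c - (t - c) = s - t by ring] at h4
  calc _ ≤ _ := h1
    _ = _ := h3
    _ ≤ _ := by linarith

lemma bA_lip (s t : ℝ) : |bA s - bA t| ≤ 32 * |s - t| := by
  unfold bA
  have h1 := kap_lip (1/4) s t
  have h2 := kap_lip (3/4) s t
  rw [show kap (1/4) s + kap (3/4) s - (kap (1/4) t + kap (3/4) t)
    = (kap (1/4) s - kap (1/4) t) + (kap (3/4) s - kap (3/4) t) by ring]
  refine (abs_add_le _ _).trans ?_
  linarith

lemma sg_lip (j : Fin 2) (s t : ℝ) : |sg j s - sg j t| ≤ 8 * |s - t| := by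
  unfold sg
  have h1 := clamp_lip (8 * (s - cen j) + 1/2) (8 * (t - cen j) + 1/2)
  have h3 : |8 * (s - cen j) + 1/2 - (8 * (t - cen j) + 1/2)| = 8 * |s - t| := by
    rw [show 8 * (s - cen j) + 1/2 - (8 * (t - cen j) + 1/2) = 8 * (s - t) by ring, abs_mul]
    norm_num
  exact h1.trans (le_of_eq h3)

lemma bs_lip (s t s' t' : ℝ) : |bs s t - bs s' t'| ≤ 8 * max |s - s'| |t - t'| := by
  unfold bs
  rw [← mul_sub, abs_mul, abs_of_pos (by norm_num : (0:ℝ) < 1/4)]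
  have h1 := abs_min_sub_min_le_max (bB s) (bA t) (bB s') (bA t')
  have h2 : |bB s - bB s'| ≤ 32 * max |s - s'| |t - t'| := by
    have h := kap_lip (3/4) s s'
    have h' := le_max_left |s - s'| |t - t'|
    have h'' := abs_nonneg (s - s')
    unfold bB
    linarith
  have h3 : |bA t - bA t'| ≤ 32 * max |s - s'| |t - t'| := by
    have h := bA_lip t t'
    have h' := le_max_right |s - s'| |t - t'|
    linarith
  have h4 := max_le h2 h3
  linarith

lemma ph_lip (m : ℕ) : ∃ L : ℝ, 0 ≤ L ∧ ∀ s t s' t' : ℝ,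
    |ph m s t - ph m s' t'| ≤ L * max |s - s'| |t - t'| := by
  induction m with
  | zero =>
    refine ⟨0, le_refl _, fun s t s' t' => ?_⟩
    simp [ph]
  | succ m ih =>
    obtain ⟨L, hL, h⟩ := ih
    refine ⟨8 + 16 * L, by linarith, fun s t s' t' => ?_⟩
    have h1 := bs_lip s t s' t'
    set M := max |s - s'| |t - t'| with hM
    have hM0 : 0 ≤ M := (abs_nonneg _).trans (le_max_left _ _)
    have h2 : ∀ i j : Fin 2, |ph m (sg i s) (sg j t) - ph m (sg i s') (sg j t')| ≤ 8 * L * M := by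
      intro i j
      refine (h _ _ _ _).trans ?_
      have a1 : |sg i s - sg i s'| ≤ 8 * M := (sg_lip i s s').trans (by linarith [le_max_left |s - s'| |t - t'|])
      have a2 : |sg j t - sg j t'| ≤ 8 * M := (sg_lip j t t').trans (by linarith [le_max_right |s - s'| |t - t'|])
      have a3 := mul_le_mul_of_nonneg_left (max_le a1 a2) hL
      linarith
    have h3 : ph (m+1) s t - ph (m+1) s' t' = (bs s t - bs s' t')
        + (1/2) * ∑ i : Fin 2, ∑ j : Fin 2, (ph m (sg i s) (sg j t) - ph m (sg i s') (sg j t')) := by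
      simp only [ph, Finset.sum_sub_distrib]
      ring
    have h4 : |∑ i : Fin 2, ∑ j : Fin 2, (ph m (sg i s) (sg j t) - ph m (sg i s') (sg j t'))|
        ≤ ∑ i : Fin 2, ∑ j : Fin 2, (8 * L * M) := by
      refine (Finset.abs_sum_le_sum_abs _ _).trans (Finset.sum_le_sum fun i _ => ?_)
      exact (Finset.abs_sum_le_sum_abs _ _).trans (Finset.sum_le_sum fun j _ => h2 i j)
    simp only [Finset.sum_const, Finset.card_univ, Fintype.card_fin, nsmul_eq_mul] at h4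
    rw [h3]
    refine (abs_add_le _ _).trans ?_
    rw [abs_mul, abs_of_pos (by norm_num : (0:ℝ) < 1/2)]
    push_cast at h4
    nlinarith

/-- Lipschitz constant of `toLp` on `ℝ^d` -/
def C1 (d : ℕ) : ℝ≥0 := (Fintype.card (Fin d) : ℝ≥0) ^ (1 / (2:ℝ≥0∞)).toReal

lemma cube_dist_le {d : ℕ} (x y : Cube d) {D : ℝ} (hD : 0 ≤ D) (h : ∀ i, |x.1 i - y.1 i| ≤ D) :
    dist x y ≤ C1 d * D := by
  rw [Subtype.dist_eq]
  refine ((PiLp.lipschitzWith_toLp 2 (fun _ : Fin d => ℝ)).dist_le_mul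
    (WithLp.ofLp x.1) (WithLp.ofLp y.1)).trans ?_
  apply mul_le_mul_of_nonneg_left _ (NNReal.coe_nonneg _)
  rw [dist_pi_le_iff hD]
  intro i
  rw [Real.dist_eq]
  exact h i

lemma cube_coord_le {d : ℕ} (x y : Cube d) (i : Fin d) : |x.1 i - y.1 i| ≤ dist x y := by
  rw [Subtype.dist_eq, ← Real.dist_eq]
  exact PiLp.dist_apply_le x.1 y.1 i

lemma stage_lip {d : ℕ} (I : Ix d) (m : ℕ) : ∃ K : ℝ≥0, LipschitzWith K (cubeHomeo I (Pm m)) := by
  obtain ⟨L, hL, h⟩ := ph_lip m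
  refine ⟨C1 d * Real.toNNReal (3 * (1 + L)), LipschitzWith.of_dist_le_mul fun x y => ?_⟩
  rw [NNReal.coe_mul, Real.coe_toNNReal _ (by positivity), mul_assoc]
  have hd : 0 ≤ dist x y := dist_nonneg
  have h0 := cube_coord_le x y I.i0
  have h1 := cube_coord_le x y I.i1
  have hc : ∀ i, |x.1 i - y.1 i| ≤ (1 + L) * dist x y := fun i => by
    have := cube_coord_le x y i
    nlinarith
  apply cube_dist_le _ _ (by positivity)
  intro i
  have := coord_lip I (x := WithLp.ofLp x.1) (x' := WithLp.ofLp y.1)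
    (a := ph m (x.1 I.i0) (x.1 I.i1)) (b := ph m (x.1 I.i1) (x.1 I.i0))
    (a' := ph m (y.1 I.i0) (y.1 I.i1)) (b' := ph m (y.1 I.i1) (y.1 I.i0)) (D := (1 + L) * dist x y)
    y.2 ⟨ph_nonneg m _ _, ph_le m _ _⟩ ⟨ph_nonneg m _ _, ph_le m _ _⟩ hc
    ((h _ _ _ _).trans (by have := mul_le_mul_of_nonneg_left (max_le h0 h1) hL; nlinarith))
    ((h _ _ _ _).trans (by have := mul_le_mul_of_nonneg_left (max_le h1 h0) hL; nlinarith)) i
  rw [← mul_assoc] at this
  exact this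

lemma stage_antilip {d : ℕ} (I : Ix d) (m : ℕ) :
    ∃ K : ℝ≥0, LipschitzWith K (cubeHomeo I (Pm m)).symm := by
  obtain ⟨L, hL, h⟩ := ph_lip m
  refine ⟨C1 d * Real.toNNReal (2 * (1 + L)), LipschitzWith.of_dist_le_mul fun x' y' => ?_⟩
  rw [NNReal.coe_mul, Real.coe_toNNReal _ (by positivity), mul_assoc]
  obtain ⟨x, rfl⟩ := (cubeHomeo I (Pm m)).surjective x'
  obtain ⟨y, rfl⟩ := (cubeHomeo I (Pm m)).surjective y'
  rw [Homeomorph.symm_apply_apply, Homeomorph.symm_apply_apply]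
  set D := dist (cubeHomeo I (Pm m) x) (cubeHomeo I (Pm m) y) with hD
  have hd : 0 ≤ D := dist_nonneg
  have hcd : ∀ i, |mv I (Pm m) (WithLp.ofLp x.1) i - mv I (Pm m) (WithLp.ofLp y.1) i| ≤ D := fun i =>
    cube_coord_le (cubeHomeo I (Pm m) x) (cubeHomeo I (Pm m) y) i
  have h0 := hcd I.i0
  have h1 := hcd I.i1
  rw [mv_i0, mv_i0] at h0
  rw [mv_i1, mv_i1] at h1
  apply cube_dist_le _ _ (by positivity)
  intro i
  have h2 := hcd i
  simp only [mv] at h2
  have u1 : |(Pm m).u (WithLp.ofLp x.1 I.i0) (WithLp.ofLp x.1 I.i1) - (Pm m).u (WithLp.ofLp y.1 I.i0) (WithLp.ofLp y.1 I.i1)|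
      ≤ L * D := (h _ _ _ _).trans (mul_le_mul_of_nonneg_left (max_le h0 h1) hL)
  have u2 : |(Pm m).u (WithLp.ofLp x.1 I.i1) (WithLp.ofLp x.1 I.i0) - (Pm m).u (WithLp.ofLp y.1 I.i1) (WithLp.ofLp y.1 I.i0)|
      ≤ L * D := (h _ _ _ _).trans (mul_le_mul_of_nonneg_left (max_le h1 h0) hL)
  have h3 := cf_lip I u1 u2 i
  set c := cf I ((Pm m).u (WithLp.ofLp x.1 I.i0) (WithLp.ofLp x.1 I.i1))
    ((Pm m).u (WithLp.ofLp x.1 I.i1) (WithLp.ofLp x.1 I.i0)) i with hc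
  set c' := cf I ((Pm m).u (WithLp.ofLp y.1 I.i0) (WithLp.ofLp y.1 I.i1))
    ((Pm m).u (WithLp.ofLp y.1 I.i1) (WithLp.ofLp y.1 I.i0)) i with hc'
  have hcm : c ∈ Icc (0:ℝ) (1/2) := cf_mem I ((Pm m).mem _ _) ((Pm m).mem _ _) i
  have h4 := hh_expand hcm (WithLp.ofLp x.1 i) (WithLp.ofLp y.1 i)
  have h5 : |hh c (WithLp.ofLp y.1 i) - hh c' (WithLp.ofLp y.1 i)| ≤ L * D := by
    have e : hh c (WithLp.ofLp y.1 i) - hh c' (WithLp.ofLp y.1 i) = tent (WithLp.ofLp y.1 i) * (c - c') := by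
      unfold hh; ring
    rw [e, abs_mul]
    obtain ⟨t0, t1, _⟩ := tent_mem (y.2 i)
    have t2 : |tent (WithLp.ofLp y.1 i)| ≤ 1 := by
      rw [abs_of_nonneg t0]; linarith
    calc |tent (WithLp.ofLp y.1 i)| * |c - c'| ≤ 1 * |c - c'| := mul_le_mul_of_nonneg_right t2 (abs_nonneg _)
      _ ≤ L * D := by rw [one_mul]; exact h3
  have h6 : |hh c (WithLp.ofLp x.1 i) - hh c (WithLp.ofLp y.1 i)| ≤ D + L * D := by
    have e : hh c (WithLp.ofLp x.1 i) - hh c (WithLp.ofLp y.1 i)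
        = (hh c (WithLp.ofLp x.1 i) - hh c' (WithLp.ofLp y.1 i))
          - (hh c (WithLp.ofLp y.1 i) - hh c' (WithLp.ofLp y.1 i)) := by ring
    rw [e]
    refine (abs_sub _ _).trans ?_
    linarith
  calc |x.1 i - y.1 i| ≤ 2 * |hh c (WithLp.ofLp x.1 i) - hh c (WithLp.ofLp y.1 i)| := h4
    _ ≤ 2 * (1 + L) * D := by linarith

lemma stage_close {d : ℕ} (I : Ix d) (m : ℕ) (x : Cube d) :
    dist (cubeHomeo I Pi' x) (cubeHomeo I (Pm m) x) ≤ C1 d * ((1/2)^m) := by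
  apply cube_dist_le _ _ (by positivity)
  intro i
  have e : ∀ c c' t : ℝ, hh c t - hh c' t = tent t * (c - c') := by
    intro c c' t; unfold hh; ring
  have h1 : |phi (x.1 I.i0) (x.1 I.i1) - ph m (x.1 I.i0) (x.1 I.i1)| ≤ (1/2)^m := by
    have := dist_ph_phi m (x.1 I.i0) (x.1 I.i1)
    have h2 : (0:ℝ) ≤ (1/2)^m := by positivity
    rw [abs_sub_comm]; linarith
  have h2 : |phi (x.1 I.i1) (x.1 I.i0) - ph m (x.1 I.i1) (x.1 I.i0)| ≤ (1/2)^m := by
    have := dist_ph_phi m (x.1 I.i1) (x.1 I.i0)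
    have h2 : (0:ℝ) ≤ (1/2)^m := by positivity
    rw [abs_sub_comm]; linarith
  have h3 := cf_lip I h1 h2 i
  show |hh (cf I (phi (x.1 I.i0) (x.1 I.i1)) (phi (x.1 I.i1) (x.1 I.i0)) i) (x.1 i)
    - hh (cf I (ph m (x.1 I.i0) (x.1 I.i1)) (ph m (x.1 I.i1) (x.1 I.i0)) i) (x.1 i)| ≤ _
  rw [e, abs_mul]
  obtain ⟨t0, t1, _⟩ := tent_mem (x.2 i)
  have t2 : |tent (x.1 i)| ≤ 1 := by
    rw [abs_of_nonneg t0]; linarith
  calc |tent (x.1 i)| * _ ≤ 1 * _ := mul_le_mul_of_nonneg_right t2 (abs_nonneg _)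
    _ ≤ _ := by rw [one_mul]; exact h3

end Pool.Agent.W2helper13.CE
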