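import Pool.Agent.W2helper13.CE.Lim

/-!
# The homeomorphisms of the cube
-/

noncomputable section

namespace Pool.Agent.W2helper13.CE

open Set Filter Topology

/-- the closed unit cube of `ℝ^d` -/
def Cube (d : ℕ) : Set (EuclideanSpace ℝ (Fin d)) := {x | ∀ i, x i ∈ Icc (0:ℝ) 1}

/-- the tent function -/
def tent (t : ℝ) : ℝ := min t (1 - t)

lemma tent_lip (s t : ℝ) : |tent s - tent t| ≤ |s - t| := by
  unfold tent
  have h := abs_min_sub_min_le_max s (1 - s) t (1 - t)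
  have e : |1 - s - (1 - t)| = |s - t| := by
    rw [show 1 - s - (1 - t) = -(s - t) by ring, abs_neg]
  rw [e, max_self] at h
  exact h

lemma tent_mem {t : ℝ} (h : t ∈ Icc (0:ℝ) 1) : 0 ≤ tent t ∧ tent t ≤ 1/2 ∧ tent t ≤ 1 - t := by
  unfold tent
  obtain ⟨h0, h1⟩ := h
  refine ⟨le_min h0 (by linarith), ?_, min_le_right _ _⟩
  rcases le_total t (1/2) with h | h
  · exact (min_le_left _ _).trans h
  · exact (min_le_right _ _).trans (by linarith)

lemma continuous_tent : Continuous tent := by unfold tent; fun_prop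

/-- the elementary interval homeomorphism -/
def hh (c t : ℝ) : ℝ := t + tent t * c

lemma hh_mem {c t : ℝ} (hc : c ∈ Icc (0:ℝ) (1/2)) (ht : t ∈ Icc (0:ℝ) 1) : hh c t ∈ Icc (0:ℝ) 1 := by
  obtain ⟨h0, _, h2⟩ := tent_mem ht
  obtain ⟨c0, c1⟩ := hc
  unfold hh
  constructor
  · have := mul_nonneg h0 c0
    linarith [ht.1]
  · have : tent t * c ≤ tent t * 1 := mul_le_mul_of_nonneg_left (by linarith) h0
    linarith

lemma hh_expand {c : ℝ} (hc : c ∈ Icc (0:ℝ) (1/2)) (s t : ℝ) : |s - t| ≤ 2 * |hh c s - hh c t| := by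
  unfold hh
  obtain ⟨c0, c1⟩ := hc
  have h1 : |(tent s - tent t) * c| ≤ (1/2) * |s - t| := by
    rw [abs_mul, abs_of_nonneg c0, mul_comm]
    exact mul_le_mul c1 (tent_lip s t) (abs_nonneg _) (by norm_num)
  have h2 : s - t = (s + tent s * c - (t + tent t * c)) - (tent s - tent t) * c := by ring
  have h3 : |s - t| ≤ |s + tent s * c - (t + tent t * c)| + |(tent s - tent t) * c| := by
    conv_lhs => rw [h2]
    exact abs_sub _ _
  linarith

lemma hh_surj {c t : ℝ} (hc : c ∈ Icc (0:ℝ) (1/2)) (ht : t ∈ Icc (0:ℝ) 1) :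
    ∃ s ∈ Icc (0:ℝ) 1, hh c s = t := by
  have hcont : Continuous (hh c) := by
    unfold hh
    exact continuous_id.add (continuous_tent.mul continuous_const)
  have h := intermediate_value_Icc (zero_le_one : (0:ℝ) ≤ 1) hcont.continuousOn
  have e0 : hh c 0 = 0 := by unfold hh tent; norm_num
  have e1 : hh c 1 = 1 := by unfold hh tent; norm_num
  rw [e0, e1] at h
  exact h ht

/-- data: four distinct coordinates -/
structure Ix (d : ℕ) where
  i0 : Fin d
  i1 : Fin d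
  i2 : Fin d
  i3 : Fin d
  h01 : i0 ≠ i1
  h02 : i0 ≠ i2
  h03 : i0 ≠ i3
  h12 : i1 ≠ i2
  h13 : i1 ≠ i3
  h23 : i2 ≠ i3

/-- coefficient in coordinate `i` -/
def cf {d : ℕ} (I : Ix d) (a b : ℝ) (i : Fin d) : ℝ :=
  if i = I.i2 then a else if i = I.i3 then b else 0

lemma cf_mem {d : ℕ} (I : Ix d) {a b : ℝ} (ha : a ∈ Icc (0:ℝ) (1/2)) (hb : b ∈ Icc (0:ℝ) (1/2))
    (i : Fin d) : cf I a b i ∈ Icc (0:ℝ) (1/2) := by
  unfold cf
  split_ifs
  · exact ha
  · exact hb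
  · constructor <;> norm_num

lemma cf_i0 {d : ℕ} (I : Ix d) (a b : ℝ) : cf I a b I.i0 = 0 := by
  unfold cf; rw [if_neg I.h02, if_neg I.h03]

lemma cf_i1 {d : ℕ} (I : Ix d) (a b : ℝ) : cf I a b I.i1 = 0 := by
  unfold cf; rw [if_neg I.h12, if_neg I.h13]

lemma cf_i2 {d : ℕ} (I : Ix d) (a b : ℝ) : cf I a b I.i2 = a := by
  unfold cf; rw [if_pos rfl]

lemma cf_i3 {d : ℕ} (I : Ix d) (a b : ℝ) : cf I a b I.i3 = b := by
  unfold cf; rw [if_neg I.h23.symm, if_pos rfl]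

/-- a function on the plane with values in `[0,1/2]` -/
structure Pf where
  u : ℝ → ℝ → ℝ
  cont : Continuous (fun p : ℝ × ℝ => u p.1 p.2)
  mem : ∀ s t, u s t ∈ Icc (0:ℝ) (1/2)

/-- the map on coordinates -/
def mv {d : ℕ} (I : Ix d) (P : Pf) (x : Fin d → ℝ) : Fin d → ℝ :=
  fun i => hh (cf I (P.u (x I.i0) (x I.i1)) (P.u (x I.i1) (x I.i0)) i) (x i)

lemma mv_mem {d : ℕ} (I : Ix d) (P : Pf) {x : Fin d → ℝ} (hx : ∀ i, x i ∈ Icc (0:ℝ) 1) (i : Fin d) :
    mv I P x i ∈ Icc (0:ℝ) 1 :=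
  hh_mem (cf_mem I (P.mem _ _) (P.mem _ _) i) (hx i)

lemma hh_zero (t : ℝ) : hh 0 t = t := by unfold hh; ring

lemma mv_i0 {d : ℕ} (I : Ix d) (P : Pf) (x : Fin d → ℝ) : mv I P x I.i0 = x I.i0 := by
  unfold mv; rw [cf_i0, hh_zero]

lemma mv_i1 {d : ℕ} (I : Ix d) (P : Pf) (x : Fin d → ℝ) : mv I P x I.i1 = x I.i1 := by
  unfold mv; rw [cf_i1, hh_zero]

lemma mv_inj {d : ℕ} (I : Ix d) (P : Pf) : Function.Injective (mv I P) := by
  intro x y h
  have h0 : x I.i0 = y I.i0 := by rw [← mv_i0 I P x, ← mv_i0 I P y, h]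
  have h1 : x I.i1 = y I.i1 := by rw [← mv_i1 I P x, ← mv_i1 I P y, h]
  funext i
  have h2 := congrFun h i
  simp only [mv] at h2
  rw [h0, h1] at h2
  have h3 := hh_expand (cf_mem I (P.mem (y I.i0) (y I.i1)) (P.mem (y I.i1) (y I.i0)) i) (x i) (y i)
  rw [h2, sub_self, abs_zero, mul_zero] at h3
  exact sub_eq_zero.mp (abs_eq_zero.mp (le_antisymm h3 (abs_nonneg _)))

lemma mv_surj {d : ℕ} (I : Ix d) (P : Pf) {y : Fin d → ℝ} (hy : ∀ i, y i ∈ Icc (0:ℝ) 1) :
    ∃ x : Fin d → ℝ, (∀ i, x i ∈ Icc (0:ℝ) 1) ∧ mv I P x = y := by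
  have h : ∀ i, ∃ s ∈ Icc (0:ℝ) 1,
      hh (cf I (P.u (y I.i0) (y I.i1)) (P.u (y I.i1) (y I.i0)) i) s = y i := fun i =>
    hh_surj (cf_mem I (P.mem _ _) (P.mem _ _) i) (hy i)
  choose x hx hxy using h
  have h0 : x I.i0 = y I.i0 := by
    have := hxy I.i0
    rwa [cf_i0, hh_zero] at this
  have h1 : x I.i1 = y I.i1 := by
    have := hxy I.i1
    rwa [cf_i1, hh_zero] at this
  refine ⟨x, hx, ?_⟩
  funext i
  simp only [mv]
  rw [h0, h1]
  exact hxy i

lemma mv_cont {d : ℕ} (I : Ix d) (P : Pf) : Continuous (mv I P) := by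
  apply continuous_pi
  intro i
  unfold mv hh
  have hc : Continuous (fun x : Fin d → ℝ => cf I (P.u (x I.i0) (x I.i1)) (P.u (x I.i1) (x I.i0)) i) := by
    have h01 : Continuous (fun x : Fin d → ℝ => (x I.i0, x I.i1)) := by fun_prop
    have h10 : Continuous (fun x : Fin d → ℝ => (x I.i1, x I.i0)) := by fun_prop
    unfold cf
    split_ifs
    · exact P.cont.comp h01
    · exact P.cont.comp h10
    · exact continuous_const
  exact (continuous_apply i).add ((continuous_tent.comp (continuous_apply i)).mul hc)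

/-- the bijection of the cube -/
def cubeMap {d : ℕ} (I : Ix d) (P : Pf) (x : Cube d) : Cube d :=
  ⟨WithLp.toLp 2 (mv I P (WithLp.ofLp x.1)), fun i => mv_mem I P x.2 i⟩

lemma cubeMap_bij {d : ℕ} (I : Ix d) (P : Pf) : Function.Bijective (cubeMap I P) := by
  constructor
  · intro x y h
    have h1 := congrArg (fun z : Cube d => WithLp.ofLp z.1) h
    simp only [cubeMap] at h1
    have h2 := mv_inj I P h1
    exact Subtype.ext (WithLp.ofLp_injective 2 h2)
  · intro y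
    obtain ⟨x, hx, hxy⟩ := mv_surj I P (y := WithLp.ofLp y.1) y.2
    refine ⟨⟨WithLp.toLp 2 x, hx⟩, ?_⟩
    apply Subtype.ext
    apply WithLp.ofLp_injective 2
    exact hxy

lemma cubeMap_cont {d : ℕ} (I : Ix d) (P : Pf) : Continuous (cubeMap I P) := by
  apply Continuous.subtype_mk
  exact (PiLp.continuous_toLp 2 _).comp ((mv_cont I P).comp
    ((PiLp.continuous_ofLp 2 _).comp continuous_subtype_val))

lemma isCompact_cube (d : ℕ) : IsCompact (Cube d) := by
  have h : Cube d = (WithLp.toLp 2) '' (Set.pi univ (fun _ : Fin d => Icc (0:ℝ) 1)) := by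
    ext x
    constructor
    · intro hx
      exact ⟨WithLp.ofLp x, fun i _ => hx i, rfl⟩
    · rintro ⟨y, hy, rfl⟩ i
      exact hy i (mem_univ i)
  rw [h]
  exact (isCompact_univ_pi fun _ => isCompact_Icc).image (PiLp.continuous_toLp 2 _)

instance (d : ℕ) : CompactSpace (Cube d) := isCompact_iff_compactSpace.mp (isCompact_cube d)

/-- the homeomorphism of the cube -/
def cubeHomeo {d : ℕ} (I : Ix d) (P : Pf) : Cube d ≃ₜ Cube d :=
  Continuous.homeoOfEquivCompactToT2 (f := Equiv.ofBijective (cubeMap I P) (cubeMap_bij I P))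
    (cubeMap_cont I P)

lemma cubeHomeo_apply {d : ℕ} (I : Ix d) (P : Pf) (x : Cube d) : cubeHomeo I P x = cubeMap I P x := rfl

end Pool.Agent.W2helper13.CE
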