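import Pool.Agent.W2helper13.CE.Base

/-!
# The limit function and its surjectivity on the Cantor set
-/

noncomputable section

namespace Pool.Agent.W2helper13.CE

open Set Filter Topology

lemma ph_cauchy (s t : ℝ) : CauchySeq (fun m => ph m s t) := by
  apply cauchySeq_of_le_geometric (1/2) (1/4) (by norm_num)
  intro m
  rw [dist_comm, Real.dist_eq]
  exact ph_diff m s t

/-- the limit function -/
def phi (s t : ℝ) : ℝ := Classical.choose (cauchySeq_tendsto_of_complete (ph_cauchy s t))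

lemma tendsto_phi (s t : ℝ) : Tendsto (fun m => ph m s t) atTop (𝓝 (phi s t)) :=
  Classical.choose_spec (cauchySeq_tendsto_of_complete (ph_cauchy s t))

lemma dist_ph_phi (m : ℕ) (s t : ℝ) : |ph m s t - phi s t| ≤ (1/2) * (1/2)^m := by
  have h := dist_le_of_le_geometric_of_tendsto (1/2) (1/4) (by norm_num)
    (fun m => by rw [dist_comm, Real.dist_eq]; exact ph_diff m s t) (tendsto_phi s t) m
  rw [Real.dist_eq] at h
  refine h.trans (le_of_eq ?_)
  ring

lemma continuous_phi : Continuous (fun p : ℝ × ℝ => phi p.1 p.2) := by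
  have hU : TendstoUniformly (fun m (p : ℝ × ℝ) => ph m p.1 p.2) (fun p => phi p.1 p.2) atTop := by
    rw [Metric.tendstoUniformly_iff]
    intro ε hε
    have h0 : Tendsto (fun m : ℕ => (1/2 : ℝ) * (1/2)^m) atTop (𝓝 ((1/2) * 0)) :=
      (tendsto_pow_atTop_nhds_zero_of_lt_one (by norm_num) (by norm_num)).const_mul _
    rw [mul_zero] at h0
    have h1 := h0.eventually (gt_mem_nhds hε)
    filter_upwards [h1] with m hm p
    rw [Real.dist_eq, abs_sub_comm]
    exact (dist_ph_phi m p.1 p.2).trans_lt hm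
  exact hU.continuous (Eventually.frequently (Eventually.of_forall (fun m => continuous_ph m)))

lemma phi_nonneg (s t : ℝ) : 0 ≤ phi s t :=
  ge_of_tendsto' (tendsto_phi s t) (fun m => ph_nonneg m s t)

lemma phi_le (s t : ℝ) : phi s t ≤ 1/2 :=
  le_of_tendsto' (tendsto_phi s t) (fun m => ph_le m s t)

lemma phi_eq_of_not_V {m : ℕ} {s t : ℝ} (h : ¬ V m s t) : phi s t = ph m s t := by
  have h1 : Tendsto (fun k => ph (m+k) s t) atTop (𝓝 (phi s t)) := by
    have := (tendsto_add_atTop_iff_nat m).mpr (tendsto_phi s t)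
    simpa [add_comm] using this
  have h2 : (fun k => ph (m+k) s t) = fun _ => ph m s t := by
    funext k; exact ph_stable m k h
  rw [h2] at h1
  exact (tendsto_nhds_unique h1 tendsto_const_nhds)

/-! ## the coding map -/

/-- first digit -/
def dgt (p : ℝ) : Fin 2 := if p < 1/4 then 0 else 1

/-- shift -/
def sh (p : ℝ) : ℝ := 2 * p - dg (dgt p) / 2

/-- the point of the Cantor set with code `p` -/
def xi (p : ℝ) : ℝ := 1/2 + ∑' k : ℕ, (1/8 : ℝ)^k * (cen (dgt (sh^[k] p)) - 1/2)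

lemma cen_bd (j : Fin 2) : |cen j - 1/2| = 1/4 := by
  unfold cen
  split_ifs
  · rw [abs_of_neg (by norm_num)]; norm_num
  · rw [abs_of_pos (by norm_num)]; norm_num

lemma xi_summable (p : ℝ) : Summable (fun k : ℕ => (1/8 : ℝ)^k * (cen (dgt (sh^[k] p)) - 1/2)) := by
  apply Summable.of_norm_bounded (g := fun k : ℕ => (1/8:ℝ)^k * (1/4))
  · exact (summable_geometric_of_lt_one (by norm_num) (by norm_num)).mul_right _
  · intro k
    rw [Real.norm_eq_abs, abs_mul, cen_bd, abs_of_pos (by positivity)]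

lemma xi_eq (p : ℝ) : xi p = cen (dgt p) + (xi (sh p) - 1/2) / 8 := by
  have h1 : ∑' k : ℕ, (1/8 : ℝ)^k * (cen (dgt (sh^[k] p)) - 1/2)
      = (cen (dgt p) - 1/2) + ∑' k : ℕ, (1/8 : ℝ)^(k+1) * (cen (dgt (sh^[k+1] p)) - 1/2) := by
    rw [(xi_summable p).tsum_eq_zero_add]
    simp
  have h2 : ∑' k : ℕ, (1/8 : ℝ)^(k+1) * (cen (dgt (sh^[k+1] p)) - 1/2)
      = (1/8) * ∑' k : ℕ, (1/8 : ℝ)^k * (cen (dgt (sh^[k] (sh p))) - 1/2) := by
    rw [← tsum_mul_left]
    congr 1
    funext k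
    rw [Function.iterate_succ_apply]
    ring
  unfold xi
  rw [h1, h2]
  ring

lemma xi_bd (p : ℝ) : |xi p - 1/2| ≤ 2/7 := by
  have h : xi p - 1/2 = ∑' k : ℕ, (1/8 : ℝ)^k * (cen (dgt (sh^[k] p)) - 1/2) := by
    unfold xi; ring
  rw [h]
  have h1 : ‖∑' k : ℕ, (1/8 : ℝ)^k * (cen (dgt (sh^[k] p)) - 1/2)‖
      ≤ ∑' k : ℕ, (1/8:ℝ)^k * (1/4) := by
    apply tsum_of_norm_bounded ((summable_geometric_of_lt_one (by norm_num) (by norm_num)).mul_right _).hasSum
    intro k
    rw [Real.norm_eq_abs, abs_mul, cen_bd, abs_of_pos (by positivity)]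
  rw [Real.norm_eq_abs] at h1
  refine h1.trans (le_of_eq ?_)
  rw [tsum_mul_right, tsum_geometric_of_lt_one (by norm_num) (by norm_num)]
  norm_num

lemma xi_inn (p : ℝ) : xi p ∈ inn (dgt p) := by
  show |xi p - cen (dgt p)| < 1/16
  rw [xi_eq p]
  have h := xi_bd (sh p)
  have e : cen (dgt p) + (xi (sh p) - 1/2) / 8 - cen (dgt p) = (xi (sh p) - 1/2) / 8 := by ring
  rw [e, abs_div, abs_of_pos (by norm_num : (0:ℝ) < 8)]
  linarith

lemma xi_next (p : ℝ) : 8 * (xi p - cen (dgt p)) + 1/2 = xi (sh p) := by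
  rw [xi_eq p]; ring

lemma xi_V (m : ℕ) : ∀ p q : ℝ, V m (xi p) (xi q) := by
  induction m with
  | zero => intro p q; trivial
  | succ m ih =>
    intro p q
    refine ⟨dgt p, dgt q, xi_inn p, xi_inn q, ?_⟩
    rw [xi_next, xi_next]
    exact ih _ _

lemma sh_mem {p : ℝ} (h : p ∈ Icc (0:ℝ) (1/2)) : sh p ∈ Icc (0:ℝ) (1/2) := by
  unfold sh dgt dg
  obtain ⟨h1, h2⟩ := h
  split_ifs with h3 h4
  · constructor <;> linarith
  · exact absurd rfl h4
  · rename_i h5
    exact absurd h5 (by decide)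
  · constructor <;> linarith

lemma ph_xi (m : ℕ) : ∀ {p q : ℝ}, p ∈ Icc (0:ℝ) (1/2) →
    |ph m (xi p) (xi q) - p| ≤ (1/2) * (1/2)^m := by
  induction m with
  | zero =>
    intro p q hp
    show |0 - p| ≤ _
    rw [zero_sub, abs_neg, abs_of_nonneg hp.1]
    simpa using hp.2
  | succ m ih =>
    intro p q hp
    rw [ph_inn m (xi_inn p) (xi_inn q), xi_next, xi_next]
    have h := ih (p := sh p) (q := sh q) (sh_mem hp)
    have e : dg (dgt p) / 4 + (1/2) * ph m (xi (sh p)) (xi (sh q)) - p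
        = (1/2) * (ph m (xi (sh p)) (xi (sh q)) - sh p) := by
      unfold sh; ring
    rw [e, abs_mul, abs_of_pos (by norm_num : (0:ℝ) < 1/2), pow_succ]
    linarith

lemma phi_xi {p q : ℝ} (hp : p ∈ Icc (0:ℝ) (1/2)) : phi (xi p) (xi q) = p := by
  have h1 := tendsto_phi (xi p) (xi q)
  have h2 : Tendsto (fun m => ph m (xi p) (xi q)) atTop (𝓝 p) := by
    rw [tendsto_iff_dist_tendsto_zero]
    have h0 : Tendsto (fun m : ℕ => (1/2 : ℝ) * (1/2)^m) atTop (𝓝 ((1/2) * 0)) :=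
      (tendsto_pow_atTop_nhds_zero_of_lt_one (by norm_num) (by norm_num)).const_mul _
    rw [mul_zero] at h0
    refine squeeze_zero (fun m => dist_nonneg) (fun m => ?_) h0
    rw [Real.dist_eq]
    exact ph_xi m hp
  exact tendsto_nhds_unique h1 h2

lemma xi_mem (p : ℝ) : xi p ∈ Icc (0:ℝ) 1 := by
  have := xi_bd p
  rw [abs_le] at this
  constructor <;> linarith

end Pool.Agent.W2helper13.CE
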