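import Pool.Agent.W2helper13.CE.Rec

/-!
# Lower bound for the graph over the Cantor set; distances; Lipschitz bounds
-/

noncomputable section

namespace Pool.Agent.W2helper13.CE

open Set Filter Topology MeasureTheory
open scoped ENNReal NNReal MeasureTheory

/-- the graph of a homeomorphism of the cube, a subset of `ℝ^{2d}` with the Euclidean metric. -/
def graphSet {d : ℕ} (f : Cube d ≃ₜ Cube d) : Set (EuclideanSpace ℝ (Fin d ⊕ Fin d)) :=
  Set.range fun x : Cube d => WithLp.toLp 2 (Sum.elim (fun i => x.1 i) (fun i => (f x).1 i))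

/-- stage `m` -/
def Pm (m : ℕ) : Pf := ⟨ph m, continuous_ph m, fun s t => ⟨ph_nonneg m s t, ph_le m s t⟩⟩

/-- limit -/
def Pi' : Pf := ⟨phi, continuous_phi, fun s t => ⟨phi_nonneg s t, phi_le s t⟩⟩

lemma mem_graph {d : ℕ} (I : Ix d) (P : Pf) (z : EuclideanSpace ℝ (Fin d ⊕ Fin d)) :
    z ∈ graphSet (cubeHomeo I P) ↔ ∃ x : Fin d → ℝ, (∀ i, x i ∈ Icc (0:ℝ) 1) ∧
      z = mk I x (P.u (x I.i0) (x I.i1)) (P.u (x I.i1) (x I.i0)) := by
  constructor
  · rintro ⟨x, rfl⟩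
    exact ⟨WithLp.ofLp x.1, x.2, rfl⟩
  · rintro ⟨x, hx, rfl⟩
    exact ⟨⟨WithLp.toLp 2 x, hx⟩, rfl⟩

/-- the part of the graph of the limit off generation `m` -/
def Em {d : ℕ} (I : Ix d) (m : ℕ) : Set (EuclideanSpace ℝ (Fin d ⊕ Fin d)) :=
  {z | ∃ x : Fin d → ℝ, (∀ i, x i ∈ Icc (0:ℝ) 1) ∧ ¬ V m (x I.i0) (x I.i1) ∧
    z = mk I x (phi (x I.i0) (x I.i1)) (phi (x I.i1) (x I.i0))}

/-- the part of the graph of the limit over the Cantor set -/
def Ec {d : ℕ} (I : Ix d) : Set (EuclideanSpace ℝ (Fin d ⊕ Fin d)) :=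
  {z | ∃ x : Fin d → ℝ, (∀ i, x i ∈ Icc (0:ℝ) 1) ∧ (∀ m, V m (x I.i0) (x I.i1)) ∧
    z = mk I x (phi (x I.i0) (x I.i1)) (phi (x I.i1) (x I.i0))}

lemma V_symm (m : ℕ) : ∀ {s t : ℝ}, V m s t → V m t s := by
  induction m with
  | zero => intro s t _; trivial
  | succ m ih =>
    rintro s t ⟨i, j, hi, hj, hV⟩
    exact ⟨j, i, hj, hi, ih hV⟩

lemma V_mono {m k : ℕ} (h : m ≤ k) {s t : ℝ} (hk : V k s t) : V m s t := by
  induction h with
  | refl => exact hk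
  | step _ ih => exact ih (V_antitone _ hk)

lemma Em_mono {d : ℕ} (I : Ix d) : Monotone (Em I) := by
  intro m k hmk z
  rintro ⟨x, hx, hV, hz⟩
  exact ⟨x, hx, fun h => hV (V_mono hmk h), hz⟩

lemma Em_sub {d : ℕ} (I : Ix d) (m : ℕ) : Em I m ⊆ SS I (fun _ _ => True) m 0 0 0 0 0 := by
  rintro z ⟨x, hx, hV, rfl⟩
  refine ⟨x, x I.i0, x I.i1, hx, hx _, hx _, trivial, by simp, by simp, ?_⟩
  rw [phi_eq_of_not_V hV, phi_eq_of_not_V (fun h => hV (V_symm m h))]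
  simp

lemma Einf_meas {d : ℕ} (I : Ix d) : μH[(d:ℝ)] (⋃ m, Em I m) ≤ KK d * ENNReal.ofReal 23 := by
  rw [(Em_mono I).measure_iUnion]
  apply iSup_le
  intro m
  refine (measure_mono (Em_sub I m)).trans ?_
  have := SS_meas I m 0 0 0 0 0 (le_refl _) (le_refl _) (by norm_num) (by norm_num)
  simpa using this

lemma graph_m_sub {d : ℕ} (I : Ix d) (m : ℕ) :
    graphSet (cubeHomeo I (Pm m)) ⊆ (⋃ m, Em I m) ∪ SS I (V m) m 0 0 0 0 0 := by
  intro z hz
  rw [mem_graph] at hz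
  obtain ⟨x, hx, rfl⟩ := hz
  by_cases hV : V m (x I.i0) (x I.i1)
  · right
    exact ⟨x, x I.i0, x I.i1, hx, hx _, hx _, hV, by simp, by simp, by simp [Pm]⟩
  · left
    rw [mem_iUnion]
    refine ⟨m, x, hx, hV, ?_⟩
    rw [phi_eq_of_not_V hV, phi_eq_of_not_V (fun h => hV (V_symm m h))]
    rfl

lemma graph_m_meas {d : ℕ} (I : Ix d) (m : ℕ) :
    μH[(d:ℝ)] (graphSet (cubeHomeo I (Pm m))) ≤
      μH[(d:ℝ)] (⋃ m, Em I m) + KK d * ENNReal.ofReal ((1/4)^m) := by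
  refine (measure_mono (graph_m_sub I m)).trans ((measure_union_le _ _).trans ?_)
  apply add_le_add (le_refl _)
  have := SV_meas I m 0 0 0 0 0 (le_refl _) (le_refl _) (by norm_num) (by norm_num)
  simpa using this

lemma isOpen_V (m : ℕ) : IsOpen {p : ℝ × ℝ | V m p.1 p.2} := by
  induction m with
  | zero =>
    have : {p : ℝ × ℝ | V 0 p.1 p.2} = univ := by ext p; simp [V]
    rw [this]; exact isOpen_univ
  | succ m ih =>
    have : {p : ℝ × ℝ | V (m+1) p.1 p.2} = ⋃ i : Fin 2, ⋃ j : Fin 2,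
        ({p : ℝ × ℝ | |p.1 - cen i| < 1/16} ∩ {p : ℝ × ℝ | |p.2 - cen j| < 1/16}) ∩
        (fun p : ℝ × ℝ => (8 * (p.1 - cen i) + 1/2, 8 * (p.2 - cen j) + 1/2)) ⁻¹' {p | V m p.1 p.2} := by
      ext p
      simp only [V, inn, mem_ofPred_eq, mem_iUnion, mem_inter_iff, mem_preimage]
      constructor
      · rintro ⟨i, j, hi, hj, hV⟩
        exact ⟨i, j, ⟨hi, hj⟩, hV⟩
      · rintro ⟨i, j, ⟨hi, hj⟩, hV⟩
        exact ⟨i, j, hi, hj, hV⟩
    rw [this]
    apply isOpen_iUnion; intro i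
    apply isOpen_iUnion; intro j
    apply IsOpen.inter
    · apply IsOpen.inter
      · exact isOpen_lt (by fun_prop) continuous_const
      · exact isOpen_lt (by fun_prop) continuous_const
    · exact ih.preimage (by fun_prop)

/-- the measurable set of points over the Cantor set -/
def TT {d : ℕ} (I : Ix d) : Set (EuclideanSpace ℝ (Fin d ⊕ Fin d)) :=
  ⋂ m, {z | V m (z (Sum.inl I.i0)) (z (Sum.inl I.i1))}

lemma TT_meas {d : ℕ} (I : Ix d) : MeasurableSet (TT I) := by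
  apply MeasurableSet.iInter
  intro m
  have hc : Continuous (fun z : EuclideanSpace ℝ (Fin d ⊕ Fin d) =>
      ((z (Sum.inl I.i0), z (Sum.inl I.i1)) : ℝ × ℝ)) := by fun_prop
  exact ((isOpen_V m).preimage hc).measurableSet

lemma graph_lower {d : ℕ} (I : Ix d) :
    μH[(d:ℝ)] (⋃ m, Em I m) + μH[(d:ℝ)] (Ec I) ≤ μH[(d:ℝ)] (graphSet (cubeHomeo I Pi')) := by
  rw [← measure_inter_add_sdiff (graphSet (cubeHomeo I Pi')) (TT_meas I), add_comm]
  apply add_le_add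
  · apply measure_mono
    rintro z ⟨x, hx, hV, rfl⟩
    refine ⟨(mem_graph I Pi' _).mpr ⟨x, hx, rfl⟩, ?_⟩
    rw [TT, mem_iInter]
    exact hV
  · apply measure_mono
    intro z hz
    rw [mem_iUnion] at hz
    obtain ⟨m, x, hx, hV, rfl⟩ := hz
    refine ⟨(mem_graph I Pi' _).mpr ⟨x, hx, rfl⟩, ?_⟩
    intro hT
    rw [TT, mem_iInter] at hT
    exact hV (hT m)

/-- the projection -/
def prj {d : ℕ} (I : Ix d) (z : EuclideanSpace ℝ (Fin d ⊕ Fin d)) : Fin d → ℝ :=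
  fun i => if i = I.i0 then z (Sum.inr I.i2) else if i = I.i1 then z (Sum.inr I.i3) else z (Sum.inl i)

lemma prj_lip {d : ℕ} (I : Ix d) : LipschitzWith 1 (prj I) := by
  apply LipschitzWith.of_dist_le_mul
  intro z w
  rw [NNReal.coe_one, one_mul, dist_pi_le_iff dist_nonneg]
  intro i
  unfold prj
  split_ifs <;> exact PiLp.dist_apply_le z w _

/-- the open box inside the projection -/
def OO {d : ℕ} (I : Ix d) : Set (Fin d → ℝ) :=
  Set.pi univ (fun i => if i = I.i0 ∨ i = I.i1 then Ioo (17/32 : ℝ) (19/32) else Ioo (31/64 : ℝ) (33/64))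

lemma OO_pos {d : ℕ} (I : Ix d) : 0 < (volume : Measure (Fin d → ℝ)) (OO I) := by
  apply IsOpen.measure_pos
  · apply isOpen_set_pi finite_univ
    intro i _
    split_ifs <;> exact isOpen_Ioo
  · refine ⟨fun i => if i = I.i0 ∨ i = I.i1 then 9/16 else 1/2, ?_⟩
    intro i _
    simp only
    split_ifs <;> constructor <;> norm_num

lemma OO_mem0 {d : ℕ} (I : Ix d) {p : Fin d → ℝ} (hp : p ∈ OO I) {i : Fin d}
    (hi : i = I.i0 ∨ i = I.i1) : p i ∈ Ioo (17/32 : ℝ) (19/32) := by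
  have h : p i ∈ (if i = I.i0 ∨ i = I.i1 then Ioo (17/32 : ℝ) (19/32) else Ioo (31/64 : ℝ) (33/64)) :=
    hp i (mem_univ _)
  rwa [if_pos hi] at h

lemma OO_mem1 {d : ℕ} (I : Ix d) {p : Fin d → ℝ} (hp : p ∈ OO I) {i : Fin d}
    (hi : i ≠ I.i0) (hi' : i ≠ I.i1) : p i ∈ Ioo (31/64 : ℝ) (33/64) := by
  have h : p i ∈ (if i = I.i0 ∨ i = I.i1 then Ioo (17/32 : ℝ) (19/32) else Ioo (31/64 : ℝ) (33/64)) :=
    hp i (mem_univ _)
  rwa [if_neg (by rintro (h | h); exacts [hi h, hi' h])] at h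

lemma code {p q : ℝ} (hp : p ∈ Ioo (17/32 : ℝ) (19/32)) (hq : q ∈ Ioo (31/64 : ℝ) (33/64)) :
    (p - q) / tent q ∈ Icc (0:ℝ) (1/2) ∧ hh ((p - q) / tent q) q = p ∧ q ∈ Icc (0:ℝ) 1 := by
  obtain ⟨p0, p1⟩ := hp
  obtain ⟨q0, q1⟩ := hq
  have ht : 31/64 ≤ tent q := by
    unfold tent; exact le_min (by linarith) (by linarith)
  have ht0 : 0 < tent q := by linarith
  refine ⟨⟨div_nonneg (by linarith) ht0.le, ?_⟩, ?_, by constructor <;> linarith⟩
  · rw [div_le_iff₀ ht0]; linarith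
  · unfold hh
    rw [mul_div_cancel₀ _ ht0.ne']; ring

lemma OO_sub {d : ℕ} (I : Ix d) : OO I ⊆ prj I '' Ec I := by
  intro p hp
  have h0 : p I.i0 ∈ Ioo (17/32 : ℝ) (19/32) := OO_mem0 I hp (Or.inl rfl)
  have h1 : p I.i1 ∈ Ioo (17/32 : ℝ) (19/32) := OO_mem0 I hp (Or.inr rfl)
  have h2 : p I.i2 ∈ Ioo (31/64 : ℝ) (33/64) := OO_mem1 I hp I.h02.symm I.h12.symm
  have h3 : p I.i3 ∈ Ioo (31/64 : ℝ) (33/64) := OO_mem1 I hp I.h03.symm I.h13.symm
  obtain ⟨a1, a2, a3⟩ := code h0 h2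
  obtain ⟨c1, c2, c3⟩ := code h1 h3
  set a := (p I.i0 - p I.i2) / tent (p I.i2) with ha
  set b := (p I.i1 - p I.i3) / tent (p I.i3) with hb
  set x : Fin d → ℝ := fun i => if i = I.i0 then xi a else if i = I.i1 then xi b else p i with hx
  have x0 : x I.i0 = xi a := by rw [hx]; simp
  have x1 : x I.i1 = xi b := by rw [hx]; simp [I.h01.symm]
  have xo : ∀ i, i ≠ I.i0 → i ≠ I.i1 → x i = p i := by
    intro i hi0 hi1
    rw [hx]; simp only [if_neg hi0, if_neg hi1]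
  refine ⟨mk I x (phi (x I.i0) (x I.i1)) (phi (x I.i1) (x I.i0)), ⟨x, ?_, ?_, rfl⟩, ?_⟩
  · intro i
    by_cases hi0 : i = I.i0
    · rw [hi0, x0]; exact xi_mem a
    · by_cases hi1 : i = I.i1
      · rw [hi1, x1]; exact xi_mem b
      · rw [xo i hi0 hi1]
        have := OO_mem1 I hp hi0 hi1
        exact ⟨by linarith [this.1], by linarith [this.2]⟩
  · intro m
    rw [x0, x1]
    exact xi_V m a b
  · rw [x0, x1, phi_xi a1, phi_xi c1]
    funext i
    unfold prj mk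
    by_cases hi0 : i = I.i0
    · subst hi0
      simp only [if_true, Sum.elim_inr, cf_i2]
      rw [xo I.i2 I.h02.symm I.h12.symm]
      exact a2
    · by_cases hi1 : i = I.i1
      · subst hi1
        simp only [if_neg I.h01.symm, if_true, Sum.elim_inr, cf_i3]
        rw [xo I.i3 I.h03.symm I.h13.symm]
        exact c2
      · simp only [if_neg hi0, if_neg hi1, Sum.elim_inl]
        exact xo i hi0 hi1

lemma Ec_pos {d : ℕ} (I : Ix d) : 0 < μH[(d:ℝ)] (Ec I) := by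
  have h := hausdorffMeasure_pi_real (ι := Fin d)
  rw [Fintype.card_fin] at h
  have h1 := (prj_lip I).hausdorffMeasure_image_le (d := (d:ℝ)) (Nat.cast_nonneg d) (Ec I)
  rw [ENNReal.coe_one, ENNReal.one_rpow, one_mul] at h1
  have h2 := OO_pos I
  rw [← h] at h2
  exact h2.trans_le ((measure_mono (OO_sub I)).trans h1)

end Pool.Agent.W2helper13.CE
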