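import Pool.Agent.W2helper13.CE.Homeo

/-!
# Measure estimates for the graphs
-/

noncomputable section

namespace Pool.Agent.W2helper13.CE

open Set Filter Topology MeasureTheory
open scoped ENNReal NNReal MeasureTheory

/-- graph point -/
def mk {d : ℕ} (I : Ix d) (x : Fin d → ℝ) (a b : ℝ) : EuclideanSpace ℝ (Fin d ⊕ Fin d) :=
  WithLp.toLp 2 (Sum.elim x (fun i => hh (cf I a b i) (x i)))

/-- coordinates of the box map -/
def xx {d : ℕ} (j0 j1 : Fin d) (α b0 b1 : ℝ) (q : Fin d → ℝ) : Fin d → ℝ :=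
  fun i => if i = j0 then b0 + α * q j0 else if i = j1 then b1 + q j1 else q i

/-- the box map before `toLp` -/
def G0 {d : ℕ} (I : Ix d) (j0 j1 : Fin d) (α b0 b1 p0 p1 e0 e1 : ℝ) (q : Fin d → ℝ) :
    Fin d ⊕ Fin d → ℝ :=
  Sum.elim (xx j0 j1 α b0 b1 q)
    (fun i => hh (cf I (p0 + e0 * q j0) (p1 + e1 * q j0) i) (xx j0 j1 α b0 b1 q i))

/-- the box -/
def Bx {d : ℕ} (j0 j1 : Fin d) (s r : ℝ) : Set (Fin d → ℝ) :=
  Icc 0 (fun i => (if i = j0 then s else 1) * (if i = j1 then r else 1))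

lemma Bx_meas {d : ℕ} (j0 j1 : Fin d) {s r : ℝ} (hs : 0 ≤ s) (hr : 0 ≤ r) :
    (μH[(d:ℝ)] : Measure (Fin d → ℝ)) (Bx j0 j1 s r) = ENNReal.ofReal (s * r) := by
  have h := hausdorffMeasure_pi_real (ι := Fin d)
  rw [Fintype.card_fin] at h
  rw [h, Bx, Real.volume_Icc_pi]
  rw [← ENNReal.ofReal_prod_of_nonneg]
  · congr 1
    simp only [Pi.zero_apply, sub_zero]
    rw [Finset.prod_mul_distrib, Finset.prod_ite_eq', Finset.prod_ite_eq']
    simp
  · intro i _
    simp only [Pi.zero_apply, sub_zero]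
    apply mul_nonneg <;> split_ifs <;> first | assumption | norm_num

lemma xx_lip {d : ℕ} (j0 j1 : Fin d) {α : ℝ} (b0 b1 : ℝ) (hα : |α| ≤ 1) (q q' : Fin d → ℝ) (i : Fin d) :
    |xx j0 j1 α b0 b1 q i - xx j0 j1 α b0 b1 q' i| ≤ dist q q' := by
  have h : ∀ k, |q k - q' k| ≤ dist q q' := fun k => by
    rw [← Real.dist_eq]; exact dist_le_pi_dist q q' k
  unfold xx
  split_ifs
  · have e : b0 + α * q j0 - (b0 + α * q' j0) = α * (q j0 - q' j0) := by ring
    rw [e, abs_mul]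
    calc |α| * |q j0 - q' j0| ≤ 1 * |q j0 - q' j0| := mul_le_mul_of_nonneg_right hα (abs_nonneg _)
      _ ≤ dist q q' := by rw [one_mul]; exact h j0
  · have e : b1 + q j1 - (b1 + q' j1) = q j1 - q' j1 := by ring
    rw [e]; exact h j1
  · exact h i

lemma hh_lip {c c' t t' D : ℝ} (h1 : |t - t'| ≤ D) (h2 : |c - c'| ≤ D) (hc : |c| ≤ 1)
    (ht : |tent t'| ≤ 1 ∨ (c = c')) : |hh c t - hh c' t'| ≤ 3 * D := by
  have hD : 0 ≤ D := (abs_nonneg _).trans h1
  have e : hh c t - hh c' t' = (t - t') + (tent t - tent t') * c + tent t' * (c - c') := by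
    unfold hh; ring
  rw [e]
  have h3 : |(tent t - tent t') * c| ≤ D := by
    rw [abs_mul]
    calc |tent t - tent t'| * |c| ≤ |t - t'| * 1 :=
          mul_le_mul (tent_lip t t') hc (abs_nonneg _) (abs_nonneg _)
      _ ≤ D := by rw [mul_one]; exact h1
  have h4 : |tent t' * (c - c')| ≤ D := by
    rcases ht with ht | ht
    · rw [abs_mul]
      calc |tent t'| * |c - c'| ≤ 1 * |c - c'| := mul_le_mul_of_nonneg_right ht (abs_nonneg _)
        _ ≤ D := by rw [one_mul]; exact h2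
    · rw [ht, sub_self, mul_zero, abs_zero]; exact hD
  calc |(t - t') + (tent t - tent t') * c + tent t' * (c - c')|
      ≤ |(t - t') + (tent t - tent t') * c| + |tent t' * (c - c')| := abs_add_le _ _
    _ ≤ |t - t'| + |(tent t - tent t') * c| + |tent t' * (c - c')| := by
        gcongr; exact abs_add_le _ _
    _ ≤ 3 * D := by linarith

lemma G0_lip {d : ℕ} (I : Ix d) {j0 j1 : Fin d} {α b0 b1 p0 p1 e0 e1 s r : ℝ}
    (hα : |α| ≤ 1) (h02 : j0 ≠ I.i2) (h03 : j0 ≠ I.i3) (h12 : j1 ≠ I.i2) (h13 : j1 ≠ I.i3)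
    (hs0 : 0 ≤ s)
    (he0 : e0 ∈ Icc (0:ℝ) 1) (he1 : e1 ∈ Icc (0:ℝ) 1) (hp0 : 0 ≤ p0) (hp1 : 0 ≤ p1)
    (hp0' : p0 + e0 * s ≤ 1) (hp1' : p1 + e1 * s ≤ 1) :
    LipschitzOnWith 3 (G0 I j0 j1 α b0 b1 p0 p1 e0 e1) {q | q ∈ Bx j0 j1 s r ∧ q j0 ≤ s} := by
  apply LipschitzOnWith.of_dist_le_mul
  rintro q ⟨hq, hqs⟩ q' ⟨hq', hqs'⟩
  rw [dist_pi_le_iff (by positivity)]
  have hq0 : ∀ i, 0 ≤ q i := fun i => hq.1 i
  have hq0' : ∀ i, 0 ≤ q' i := fun i => hq'.1 i
  have hD : 0 ≤ dist q q' := dist_nonneg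
  have hxx := xx_lip j0 j1 b0 b1 hα q q'
  have hk : ∀ k, |q k - q' k| ≤ dist q q' := fun k => by
    rw [← Real.dist_eq]; exact dist_le_pi_dist q q' k
  intro i
  rcases i with i | i
  · simp only [G0, Sum.elim_inl, Real.dist_eq, NNReal.coe_ofNat]
    have := hxx i
    linarith
  · simp only [G0, Sum.elim_inr, Real.dist_eq, NNReal.coe_ofNat]
    apply hh_lip (hxx i)
    · unfold cf
      split_ifs
      · have e : p0 + e0 * q j0 - (p0 + e0 * q' j0) = e0 * (q j0 - q' j0) := by ring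
        rw [e, abs_mul, abs_of_nonneg he0.1]
        calc e0 * |q j0 - q' j0| ≤ 1 * |q j0 - q' j0| := mul_le_mul_of_nonneg_right he0.2 (abs_nonneg _)
          _ ≤ dist q q' := by rw [one_mul]; exact hk j0
      · have e : p1 + e1 * q j0 - (p1 + e1 * q' j0) = e1 * (q j0 - q' j0) := by ring
        rw [e, abs_mul, abs_of_nonneg he1.1]
        calc e1 * |q j0 - q' j0| ≤ 1 * |q j0 - q' j0| := mul_le_mul_of_nonneg_right he1.2 (abs_nonneg _)
          _ ≤ dist q q' := by rw [one_mul]; exact hk j0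
      · rw [sub_self, abs_zero]; exact hD
    · unfold cf
      split_ifs
      · have h1 := mul_le_mul_of_nonneg_left hqs he0.1
        have h2 := mul_nonneg he0.1 (hq0 j0)
        rw [abs_of_nonneg (by linarith)]
        linarith
      · have h1 := mul_le_mul_of_nonneg_left hqs he1.1
        have h2 := mul_nonneg he1.1 (hq0 j0)
        rw [abs_of_nonneg (by linarith)]
        linarith
      · rw [abs_zero]; norm_num
    · by_cases hi : i = I.i2 ∨ i = I.i3
      · left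
        have hij0 : i ≠ j0 := by
          rcases hi with hi | hi
          · rw [hi]; exact h02.symm
          · rw [hi]; exact h03.symm
        have hij1 : i ≠ j1 := by
          rcases hi with hi | hi
          · rw [hi]; exact h12.symm
          · rw [hi]; exact h13.symm
        have e : xx j0 j1 α b0 b1 q' i = q' i := by
          unfold xx; rw [if_neg hij0, if_neg hij1]
        rw [e]
        have h1 : q' i ≤ 1 := by
          have := hq'.2 i
          simp only [if_neg hij0, if_neg hij1, mul_one] at this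
          exact this
        obtain ⟨t0, t1, _⟩ := tent_mem (t := q' i) ⟨hq0' i, h1⟩
        rw [abs_of_nonneg t0]; linarith
      · right
        push Not at hi
        unfold cf
        rw [if_neg hi.1, if_neg hi.2, if_neg hi.1, if_neg hi.2]

/-- the Lipschitz constant of `toLp` -/
def CC (d : ℕ) : ℝ≥0 := (Fintype.card (Fin d ⊕ Fin d) : ℝ≥0) ^ (1 / (2:ℝ≥0∞)).toReal

/-- the constant of the measure estimates -/
def KK (d : ℕ) : ℝ≥0∞ := ((CC d * 3 : ℝ≥0) : ℝ≥0∞) ^ (d : ℝ)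

lemma KK_ne_top (d : ℕ) : KK d ≠ ⊤ :=
  ENNReal.rpow_ne_top_of_nonneg (Nat.cast_nonneg d) ENNReal.coe_ne_top

/-- a piece -/
def PS {d : ℕ} (I : Ix d) (j0 j1 : Fin d) (α b0 b1 p0 p1 e0 e1 s r : ℝ) :
    Set (EuclideanSpace ℝ (Fin d ⊕ Fin d)) :=
  {z | ∃ (x : Fin d → ℝ) (u t : ℝ), (∀ i, x i ∈ Icc (0:ℝ) 1) ∧ u ∈ Icc (0:ℝ) s ∧ t ∈ Icc (0:ℝ) r ∧
    x j0 = b0 + α * u ∧ x j1 = b1 + t ∧ z = mk I x (p0 + e0 * u) (p1 + e1 * u)}

lemma PS_meas {d : ℕ} (I : Ix d) {j0 j1 : Fin d} {α b0 b1 p0 p1 e0 e1 s r : ℝ}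
    (hj : j0 ≠ j1)
    (hα : |α| ≤ 1) (h02 : j0 ≠ I.i2) (h03 : j0 ≠ I.i3) (h12 : j1 ≠ I.i2) (h13 : j1 ≠ I.i3)
    (hs0 : 0 ≤ s) (hr0 : 0 ≤ r)
    (he0 : e0 ∈ Icc (0:ℝ) 1) (he1 : e1 ∈ Icc (0:ℝ) 1) (hp0 : 0 ≤ p0) (hp1 : 0 ≤ p1)
    (hp0' : p0 + e0 * s ≤ 1) (hp1' : p1 + e1 * s ≤ 1) :
    μH[(d:ℝ)] (PS I j0 j1 α b0 b1 p0 p1 e0 e1 s r) ≤ KK d * ENNReal.ofReal (s * r) := by
  have hlip := (PiLp.lipschitzWith_toLp 2 (fun _ : Fin d ⊕ Fin d => ℝ)).comp_lipschitzOnWith
    (G0_lip I (r := r) hα h02 h03 h12 h13 hs0 he0 he1 hp0 hp1 hp0' hp1' (b0 := b0) (b1 := b1))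
  have h1 := hlip.hausdorffMeasure_image_le (d := (d:ℝ)) (Nat.cast_nonneg d)
  have hsub : PS I j0 j1 α b0 b1 p0 p1 e0 e1 s r ⊆
      (WithLp.toLp 2 ∘ G0 I j0 j1 α b0 b1 p0 p1 e0 e1) '' {q | q ∈ Bx j0 j1 s r ∧ q j0 ≤ s} := by
    rintro z ⟨x, u, t, hx, hu, ht, hx0, hx1, rfl⟩
    refine ⟨fun i => if i = j0 then u else if i = j1 then t else x i, ⟨⟨?_, ?_⟩, ?_⟩, ?_⟩
    · intro i
      simp only [Pi.zero_apply]
      split_ifs
      · exact hu.1
      · exact ht.1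
      · exact (hx i).1
    · intro i
      by_cases hi0 : i = j0
      · subst hi0
        simp only [if_true, if_neg hj, mul_one]
        exact hu.2
      · by_cases hi1 : i = j1
        · subst hi1
          simp only [if_neg hi0, if_true, one_mul]
          exact ht.2
        · simp only [if_neg hi0, if_neg hi1, mul_one]
          exact (hx i).2
    · simp only [if_true]
      exact hu.2
    · have e : xx j0 j1 α b0 b1 (fun i => if i = j0 then u else if i = j1 then t else x i) = x := by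
        funext i
        unfold xx
        by_cases hi0 : i = j0
        · subst hi0
          simp only [if_true]
          exact hx0.symm
        · by_cases hi1 : i = j1
          · subst hi1
            simp only [if_neg hi0, if_true]
            exact hx1.symm
          · simp only [if_neg hi0, if_neg hi1]
      simp only [Function.comp_apply, G0, mk, e, if_true]
  refine (measure_mono hsub).trans (h1.trans ?_)
  have h2 : (μH[(d:ℝ)] : Measure (Fin d → ℝ)) {q | q ∈ Bx j0 j1 s r ∧ q j0 ≤ s} ≤ ENNReal.ofReal (s * r) := by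
    rw [← Bx_meas j0 j1 hs0 hr0]
    exact measure_mono (fun q hq => hq.1)
  exact mul_le_mul' (le_refl _) h2

end Pool.Agent.W2helper13.CE
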