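import Pool.Agent.W2helper13.CE.Meas

/-!
# The recursion for the measures of the graphs
-/

noncomputable section

namespace Pool.Agent.W2helper13.CE

open Set Filter Topology MeasureTheory
open scoped ENNReal NNReal MeasureTheory

/-- part of the graph of stage `m`, seen at generation `n` (all of it: `U = fun _ _ => True`). -/
def SS {d : ℕ} (I : Ix d) (U : ℝ → ℝ → Prop) (m n : ℕ) (b0 b1 p0 p1 : ℝ) :
    Set (EuclideanSpace ℝ (Fin d ⊕ Fin d)) :=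
  {z | ∃ (x : Fin d → ℝ) (s t : ℝ), (∀ i, x i ∈ Icc (0:ℝ) 1) ∧ s ∈ Icc (0:ℝ) 1 ∧ t ∈ Icc (0:ℝ) 1 ∧
    U s t ∧
    x I.i0 = b0 + (1/8)^n * s ∧ x I.i1 = b1 + (1/8)^n * t ∧
    z = mk I x (p0 + (1/2)^n * ph m s t) (p1 + (1/2)^n * ph m t s)}

/-- the flat piece -/
def Fl {d : ℕ} (I : Ix d) (n : ℕ) (b0 b1 p0 p1 : ℝ) : Set (EuclideanSpace ℝ (Fin d ⊕ Fin d)) :=
  PS I I.i0 I.i1 ((1/4)^n) b0 b1 p0 p1 0 0 ((1/2)^n) ((1/8)^n)

/-- sign -/
def sgn (j : Fin 2) : ℝ := if j = 0 then 1 else -1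

/-- ring piece, first coordinate radial -/
def R0 {d : ℕ} (I : Ix d) (n : ℕ) (b0 b1 p0 p1 : ℝ) (k : Fin 2 × Fin 2 × Fin 2) :
    Set (EuclideanSpace ℝ (Fin d ⊕ Fin d)) :=
  PS I I.i0 I.i1 (-(sgn k.2.1 * (1/4)^n / 16)) (b0 + (1/8)^n * (cen k.1 + sgn k.2.1 / 8)) b1 p0 p1
    (dg k.1 / 4) (dg k.2.2 / 4) ((1/2)^n) ((1/8)^n)

/-- ring piece, second coordinate radial -/
def R1 {d : ℕ} (I : Ix d) (n : ℕ) (b0 b1 p0 p1 : ℝ) (k : Fin 2 × Fin 2 × Fin 2) :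
    Set (EuclideanSpace ℝ (Fin d ⊕ Fin d)) :=
  PS I I.i1 I.i0 (-(sgn k.2.1 * (1/4)^n / 16)) (b1 + (1/8)^n * (cen k.1 + sgn k.2.1 / 8)) b0 p0 p1
    (dg k.2.2 / 4) (dg k.1 / 4) ((1/2)^n) ((1/8)^n)

lemma pw_eq (n : ℕ) : ((1/4:ℝ)^n) * ((1/2:ℝ)^n) = (1/8:ℝ)^n := by
  rw [← mul_pow]; norm_num

lemma pw_eq' (n : ℕ) : ((1/2:ℝ)^n) * ((1/8:ℝ)^n) = (1/16:ℝ)^n := by
  rw [← mul_pow]; norm_num

lemma bB_eq_dg (t : ℝ) : ∃ j : Fin 2, bB t = dg j * bA t := by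
  rcases bA_cases t with ⟨h1, h2⟩ | ⟨h1, h2⟩
  · exact ⟨0, by unfold bB dg; rw [h2]; simp⟩
  · exact ⟨1, by unfold bB dg; rw [h1]; simp⟩

lemma kap_radial {c t : ℝ} (h0 : kap c t ≠ 0) (h1 : ¬ |t - c| < 1/16) :
    ∃ k : Fin 2, t = c + sgn k * (2 - kap c t) / 16 := by
  have hlt : |t - c| < 1/8 := by
    by_contra h
    exact h0 (kap_eq_zero (not_lt.mp h))
  have e : kap c t = 2 - 16 * |t - c| := by
    unfold kap
    rw [min_eq_right (by linarith), max_eq_right (by linarith)]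
  rcases le_total 0 (t - c) with h | h
  · refine ⟨0, ?_⟩
    rw [e, abs_of_nonneg h, sgn, if_pos rfl]; ring
  · refine ⟨1, ?_⟩
    rw [e, abs_of_nonpos h, sgn, if_neg (by decide)]; ring

lemma radial {t : ℝ} (h0 : bA t ≠ 0) (h1 : ∀ i, t ∉ inn i) :
    ∃ i k : Fin 2, t = cen i + sgn k * (2 - bA t) / 16 ∧ bB t = dg i * bA t := by
  rcases bA_cases t with ⟨h2, h3⟩ | ⟨h2, h3⟩
  · rw [h2] at h0
    have h4 : ¬ |t - (1/4)| < 1/16 := by
      have := h1 0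
      simpa [inn, cen] using this
    obtain ⟨k, hk⟩ := kap_radial h0 h4
    refine ⟨0, k, ?_, ?_⟩
    · rw [h2, cen, if_pos rfl]; exact hk
    · unfold bB dg; rw [h3]; simp
  · rw [h2] at h0
    have h4 : ¬ |t - (3/4)| < 1/16 := by
      have := h1 1
      simpa [inn, cen] using this
    obtain ⟨k, hk⟩ := kap_radial h0 h4
    refine ⟨1, k, ?_, ?_⟩
    · rw [h2, cen, if_neg (by decide)]; exact hk
    · unfold bB dg; rw [h2]; simp

lemma min_dg (j : Fin 2) {a b : ℝ} (ha : 0 ≤ a) (hb : 0 ≤ b) : min (dg j * a) b = dg j * min a b := by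
  unfold dg
  split_ifs
  · simp [hb]
  · simp

/-- one step of the recursion, for the sets -/
lemma SS_step {d : ℕ} (I : Ix d) (m n : ℕ) (b0 b1 p0 p1 : ℝ) :
    SS I (fun _ _ => True) (m+1) n b0 b1 p0 p1 ⊆
      ((Fl I n b0 b1 p0 p1 ∪ ⋃ k, R0 I n b0 b1 p0 p1 k) ∪ ⋃ k, R1 I n b0 b1 p0 p1 k) ∪
      ⋃ ij : Fin 2 × Fin 2, SS I (fun _ _ => True) m (n+1)
        (b0 + (1/8)^n * (cen ij.1 - 1/16)) (b1 + (1/8)^n * (cen ij.2 - 1/16))
        (p0 + (1/2)^n * (dg ij.1 / 4)) (p1 + (1/2)^n * (dg ij.2 / 4)) := by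
  rintro z ⟨x, s, t, hx, hs, ht, -, hx0, hx1, rfl⟩
  have key8 : (1/8:ℝ)^(n+1) = (1/8)^n * (1/8) := pow_succ _ _
  have key2 : (1/2:ℝ)^(n+1) = (1/2)^n * (1/2) := pow_succ _ _
  have pos2 : (0:ℝ) < (1/2)^n := by positivity
  have pos8 : (0:ℝ) < (1/8)^n := by positivity
  have e1 := pw_eq n
  rcases inn_cases s t with ⟨i, j, hi, hj⟩ | h
  · right
    rw [mem_iUnion]
    have hi' := hi
    have hj' := hj
    simp only [inn, mem_ofPred_eq, abs_lt] at hi' hj'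
    refine ⟨(i, j), x, 8 * (s - cen i) + 1/2, 8 * (t - cen j) + 1/2, hx, ⟨by linarith, by linarith⟩,
      ⟨by linarith, by linarith⟩, trivial, ?_, ?_, ?_⟩
    · rw [hx0, key8]; ring
    · rw [hx1, key8]; ring
    · rw [ph_inn m hi hj, ph_inn m hj hi, key2]
      congr 1 <;> ring
  · left
    rw [ph_off m h, ph_off m h.symm]
    obtain ⟨j0, hj0⟩ := bB_eq_dg s
    obtain ⟨j1, hj1⟩ := bB_eq_dg t
    have f0 : bs s t = 1/4 * (dg j0 * min (bA s) (bA t)) := by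
      unfold bs; rw [hj0, min_dg j0 (bA_nonneg _) (bA_nonneg _)]
    have f1 : bs t s = 1/4 * (dg j1 * min (bA s) (bA t)) := by
      unfold bs; rw [hj1, min_dg j1 (bA_nonneg _) (bA_nonneg _), min_comm]
    by_cases hz : min (bA s) (bA t) = 0
    · left; left
      rw [f0, f1, hz]
      refine ⟨x, (1/2)^n * s, (1/8)^n * t, hx, ⟨mul_nonneg pos2.le hs.1, mul_le_of_le_one_right pos2.le hs.2⟩,
        ⟨mul_nonneg pos8.le ht.1, mul_le_of_le_one_right pos8.le ht.2⟩, ?_, hx1, ?_⟩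
      · rw [hx0, ← e1]; ring
      · congr 1 <;> ring
    · have hcase : ((∀ i, s ∉ inn i) ∧ bA s ≤ bA t) ∨ ((∀ i, t ∉ inn i) ∧ bA t ≤ bA s) := by
        rcases h with h | h
        · rcases le_or_gt (bA s) (bA t) with h' | h'
          · exact Or.inl ⟨h, h'⟩
          · right
            refine ⟨fun i hi => ?_, h'.le⟩
            rw [bA_of_inn hi] at h'
            exact absurd (bA_le_one s) (not_le.mpr h')
        · rcases le_or_gt (bA t) (bA s) with h' | h'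
          · exact Or.inr ⟨h, h'⟩
          · left
            refine ⟨fun i hi => ?_, h'.le⟩
            rw [bA_of_inn hi] at h'
            exact absurd (bA_le_one t) (not_le.mpr h')
      rcases hcase with ⟨hn, hle⟩ | ⟨hn, hle⟩
      · left; right
        rw [min_eq_left hle] at hz f0 f1
        obtain ⟨i, k, hk, hB⟩ := radial hz hn
        have hd : dg j0 * bA s = dg i * bA s := by rw [← hj0, hB]
        rw [mem_iUnion]
        refine ⟨(i, k, j1), x, (1/2)^n * bA s, (1/8)^n * t, hx,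
          ⟨mul_nonneg pos2.le (bA_nonneg s), mul_le_of_le_one_right pos2.le (bA_le_one s)⟩,
          ⟨mul_nonneg pos8.le ht.1, mul_le_of_le_one_right pos8.le ht.2⟩, ?_, hx1, ?_⟩
        · rw [hx0]
          conv_lhs => rw [hk]
          rw [← e1]; ring
        · rw [f0, f1, hd]
          congr 1 <;> ring
      · right
        rw [min_eq_right hle] at hz f0 f1
        obtain ⟨i, k, hk, hB⟩ := radial hz hn
        have hd : dg j1 * bA t = dg i * bA t := by rw [← hj1, hB]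
        rw [mem_iUnion]
        refine ⟨(i, k, j0), x, (1/2)^n * bA t, (1/8)^n * s, hx,
          ⟨mul_nonneg pos2.le (bA_nonneg t), mul_le_of_le_one_right pos2.le (bA_le_one t)⟩,
          ⟨mul_nonneg pos8.le hs.1, mul_le_of_le_one_right pos8.le hs.2⟩, ?_, hx0, ?_⟩
        · rw [hx1]
          conv_lhs => rw [hk]
          rw [← e1]; ring
        · rw [f0, f1, hd]
          congr 1 <;> ring

/-- one step of the recursion for the tails -/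
lemma SV_step {d : ℕ} (I : Ix d) (m n : ℕ) (b0 b1 p0 p1 : ℝ) :
    SS I (V (m+1)) (m+1) n b0 b1 p0 p1 ⊆
      ⋃ ij : Fin 2 × Fin 2, SS I (V m) m (n+1)
        (b0 + (1/8)^n * (cen ij.1 - 1/16)) (b1 + (1/8)^n * (cen ij.2 - 1/16))
        (p0 + (1/2)^n * (dg ij.1 / 4)) (p1 + (1/2)^n * (dg ij.2 / 4)) := by
  rintro z ⟨x, s, t, hx, hs, ht, ⟨i, j, hi, hj, hV⟩, hx0, hx1, rfl⟩
  have key8 : (1/8:ℝ)^(n+1) = (1/8)^n * (1/8) := pow_succ _ _
  have key2 : (1/2:ℝ)^(n+1) = (1/2)^n * (1/2) := pow_succ _ _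
  rw [mem_iUnion]
  have hi' := hi
  have hj' := hj
  simp only [inn, mem_ofPred_eq, abs_lt] at hi' hj'
  refine ⟨(i, j), x, 8 * (s - cen i) + 1/2, 8 * (t - cen j) + 1/2, hx, ⟨by linarith, by linarith⟩,
    ⟨by linarith, by linarith⟩, hV, ?_, ?_, ?_⟩
  · rw [hx0, key8]; ring
  · rw [hx1, key8]; ring
  · rw [ph_inn m hi hj, ph_inn m hj hi, key2]
    congr 1 <;> ring

/-! ## measure bounds -/

lemma sgn_abs (k : Fin 2) : |sgn k| = 1 := by
  unfold sgn; split_ifs <;> simp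

lemma Fl_meas {d : ℕ} (I : Ix d) (n : ℕ) {b0 b1 p0 p1 : ℝ} (h0 : 0 ≤ p0) (h1 : 0 ≤ p1)
    (h0' : p0 ≤ 1) (h1' : p1 ≤ 1) :
    μH[(d:ℝ)] (Fl I n b0 b1 p0 p1) ≤ KK d * ENNReal.ofReal ((1/16)^n) := by
  have h := PS_meas I (j0 := I.i0) (j1 := I.i1) (α := (1/4)^n) (b0 := b0) (b1 := b1) (p0 := p0) (p1 := p1)
    (e0 := 0) (e1 := 0) (s := (1/2)^n) (r := (1/8)^n) I.h01
    (by rw [abs_of_nonneg (by positivity)]; exact pow_le_one₀ (by norm_num) (by norm_num))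
    I.h02 I.h03 I.h12 I.h13 (by positivity) (by positivity)
    ⟨le_refl _, zero_le_one⟩ ⟨le_refl _, zero_le_one⟩ h0 h1 (by linarith) (by linarith)
  rw [pw_eq'] at h
  exact h

lemma alpha_bd (n : ℕ) (k : Fin 2) : |(-(sgn k * (1/4:ℝ)^n / 16))| ≤ 1 := by
  rw [abs_neg, abs_div, abs_mul, sgn_abs, one_mul, abs_of_nonneg (by positivity : (0:ℝ) ≤ (1/4)^n),
    abs_of_pos (by norm_num : (0:ℝ) < 16)]
  have : (1/4:ℝ)^n ≤ 1 := pow_le_one₀ (by norm_num) (by norm_num)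
  linarith

lemma dg4_mem (k : Fin 2) : dg k / 4 ∈ Icc (0:ℝ) 1 := by
  have h1 := dg_nonneg k
  have h2 := dg_le_one k
  constructor <;> linarith

lemma dg4_bd (k : Fin 2) (n : ℕ) : dg k / 4 * (1/2:ℝ)^n ≤ (1/2)^n / 4 := by
  have h2 := dg_le_one k
  have h3 : (0:ℝ) ≤ (1/2)^n := by positivity
  nlinarith

lemma R0_meas {d : ℕ} (I : Ix d) (n : ℕ) {b0 b1 p0 p1 : ℝ} (h0 : 0 ≤ p0) (h1 : 0 ≤ p1)
    (h0' : p0 + (1/2)^n / 2 ≤ 1/2) (h1' : p1 + (1/2)^n/2 ≤ 1/2) (k : Fin 2 × Fin 2 × Fin 2) :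
    μH[(d:ℝ)] (R0 I n b0 b1 p0 p1 k) ≤ KK d * ENNReal.ofReal ((1/16)^n) := by
  have h3 : (0:ℝ) ≤ (1/2)^n := by positivity
  have ha := dg4_bd k.1 n
  have hb := dg4_bd k.2.2 n
  have h := PS_meas I (j0 := I.i0) (j1 := I.i1) (α := (-(sgn k.2.1 * (1/4)^n / 16)))
    (b0 := (b0 + (1/8)^n * (cen k.1 + sgn k.2.1 / 8))) (b1 := b1) (p0 := p0) (p1 := p1)
    (e0 := dg k.1 / 4) (e1 := dg k.2.2 / 4) (s := (1/2)^n) (r := (1/8)^n) I.h01
    (alpha_bd n k.2.1)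
    I.h02 I.h03 I.h12 I.h13 (by positivity) (by positivity)
    (dg4_mem _) (dg4_mem _) h0 h1 (by linarith) (by linarith)
  rw [pw_eq'] at h
  exact h

lemma R1_meas {d : ℕ} (I : Ix d) (n : ℕ) {b0 b1 p0 p1 : ℝ} (h0 : 0 ≤ p0) (h1 : 0 ≤ p1)
    (h0' : p0 + (1/2)^n / 2 ≤ 1/2) (h1' : p1 + (1/2)^n/2 ≤ 1/2) (k : Fin 2 × Fin 2 × Fin 2) :
    μH[(d:ℝ)] (R1 I n b0 b1 p0 p1 k) ≤ KK d * ENNReal.ofReal ((1/16)^n) := by
  have h3 : (0:ℝ) ≤ (1/2)^n := by positivity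
  have ha := dg4_bd k.1 n
  have hb := dg4_bd k.2.2 n
  have h := PS_meas I (j0 := I.i1) (j1 := I.i0) (α := (-(sgn k.2.1 * (1/4)^n / 16)))
    (b0 := (b1 + (1/8)^n * (cen k.1 + sgn k.2.1 / 8))) (b1 := b0) (p0 := p0) (p1 := p1)
    (e0 := dg k.2.2 / 4) (e1 := dg k.1 / 4) (s := (1/2)^n) (r := (1/8)^n) I.h01.symm
    (alpha_bd n k.2.1)
    I.h12 I.h13 I.h02 I.h03 (by positivity) (by positivity)
    (dg4_mem _) (dg4_mem _) h0 h1 (by linarith) (by linarith)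
  rw [pw_eq'] at h
  exact h

lemma sum_bd {ι : Type} [Fintype ι] {X : Type*} [MeasurableSpace X] (μ : Measure X) (K : ℝ≥0∞)
    (A : ι → Set X) {c : ℝ} (N : ℕ) (hN : Fintype.card ι = N) (hc : 0 ≤ c)
    (h : ∀ i, μ (A i) ≤ K * ENNReal.ofReal c) :
    μ (⋃ i, A i) ≤ K * ENNReal.ofReal (N * c) := by
  refine (measure_iUnion_fintype_le μ A).trans ?_
  refine (Finset.sum_le_sum (fun i _ => h i)).trans ?_
  rw [Finset.sum_const, Finset.card_univ, hN, nsmul_eq_mul, ENNReal.ofReal_mul (by positivity),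
    ENNReal.ofReal_natCast]
  exact le_of_eq (by ring)

lemma next_p (n : ℕ) (k : Fin 2) {p : ℝ} (h : 0 ≤ p) (h' : p + (1/2)^n / 2 ≤ 1/2) :
    0 ≤ p + (1/2)^n * (dg k / 4) ∧ p + (1/2)^n * (dg k / 4) + (1/2)^(n+1) / 2 ≤ 1/2 := by
  have h3 : (0:ℝ) ≤ (1/2)^n := by positivity
  have ha := dg4_bd k n
  have hb := (dg4_mem k).1
  constructor
  · positivity
  · rw [pow_succ]; nlinarith

lemma SS_meas {d : ℕ} (I : Ix d) (m : ℕ) : ∀ (n : ℕ) (b0 b1 p0 p1 : ℝ), 0 ≤ p0 → 0 ≤ p1 →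
    p0 + (1/2)^n / 2 ≤ 1/2 → p1 + (1/2)^n/2 ≤ 1/2 →
    μH[(d:ℝ)] (SS I (fun _ _ => True) m n b0 b1 p0 p1) ≤ KK d * ENNReal.ofReal (23 * (1/16)^n) := by
  induction m with
  | zero =>
    intro n b0 b1 p0 p1 h0 h1 h0' h1'
    have h3 : (0:ℝ) ≤ (1/2)^n := by positivity
    have hsub : SS I (fun _ _ => True) 0 n b0 b1 p0 p1 ⊆ Fl I n b0 b1 p0 p1 := by
      rintro z ⟨x, s, t, hx, hs, ht, -, hx0, hx1, rfl⟩
      have pos2 : (0:ℝ) < (1/2)^n := by positivity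
      have pos8 : (0:ℝ) < (1/8)^n := by positivity
      refine ⟨x, (1/2)^n * s, (1/8)^n * t, hx, ⟨mul_nonneg pos2.le hs.1, mul_le_of_le_one_right pos2.le hs.2⟩,
        ⟨mul_nonneg pos8.le ht.1, mul_le_of_le_one_right pos8.le ht.2⟩, ?_, hx1, ?_⟩
      · rw [hx0, ← pw_eq n]; ring
      · simp only [ph]
        congr 1 <;> ring
    refine (measure_mono hsub).trans ((Fl_meas I n h0 h1 (by linarith) (by linarith)).trans ?_)
    apply mul_le_mul' (le_refl _)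
    apply ENNReal.ofReal_le_ofReal
    have : (0:ℝ) ≤ (1/16)^n := by positivity
    linarith
  | succ m ih =>
    intro n b0 b1 p0 p1 h0 h1 h0' h1'
    have h3 : (0:ℝ) ≤ (1/2)^n := by positivity
    have h16 : (0:ℝ) ≤ (1/16)^n := by positivity
    refine (measure_mono (SS_step I m n b0 b1 p0 p1)).trans ?_
    have m1 := Fl_meas I n (b0 := b0) (b1 := b1) h0 h1 (by linarith) (by linarith)
    have m2 := sum_bd μH[(d:ℝ)] (KK d) (R0 I n b0 b1 p0 p1) 8 (by simp) h16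
      (fun k => R0_meas I n h0 h1 h0' h1' k)
    have m3 := sum_bd μH[(d:ℝ)] (KK d) (R1 I n b0 b1 p0 p1) 8 (by simp) h16
      (fun k => R1_meas I n h0 h1 h0' h1' k)
    have m4 := sum_bd μH[(d:ℝ)] (KK d) (fun ij : Fin 2 × Fin 2 => SS I (fun _ _ => True) m (n+1)
        (b0 + (1/8)^n * (cen ij.1 - 1/16)) (b1 + (1/8)^n * (cen ij.2 - 1/16))
        (p0 + (1/2)^n * (dg ij.1 / 4)) (p1 + (1/2)^n * (dg ij.2 / 4))) (c := 23 * (1/16)^(n+1))
        4 (by simp) (by positivity)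
      (fun ij => ih (n+1) _ _ _ _ (next_p n ij.1 h0 h0').1 (next_p n ij.2 h1 h1').1
        (next_p n ij.1 h0 h0').2 (next_p n ij.2 h1 h1').2)
    refine (measure_union_le _ _).trans ?_
    refine (add_le_add ((measure_union_le _ _).trans (add_le_add ((measure_union_le _ _).trans
      (add_le_add m1 m2)) m3)) m4).trans ?_
    rw [← mul_add, ← mul_add, ← mul_add, ← ENNReal.ofReal_add (by positivity) (by positivity),
      ← ENNReal.ofReal_add (by positivity) (by positivity),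
      ← ENNReal.ofReal_add (by positivity) (by positivity)]
    apply mul_le_mul' (le_refl _)
    apply ENNReal.ofReal_le_ofReal
    rw [pow_succ]
    push_cast
    linarith

lemma SV_meas {d : ℕ} (I : Ix d) (m : ℕ) : ∀ (n : ℕ) (b0 b1 p0 p1 : ℝ), 0 ≤ p0 → 0 ≤ p1 →
    p0 + (1/2)^n / 2 ≤ 1/2 → p1 + (1/2)^n/2 ≤ 1/2 →
    μH[(d:ℝ)] (SS I (V m) m n b0 b1 p0 p1) ≤ KK d * ENNReal.ofReal ((1/16)^n * (1/4)^m) := by
  induction m with
  | zero =>
    intro n b0 b1 p0 p1 h0 h1 h0' h1'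
    have h3 : (0:ℝ) ≤ (1/2)^n := by positivity
    have hsub : SS I (V 0) 0 n b0 b1 p0 p1 ⊆ Fl I n b0 b1 p0 p1 := by
      rintro z ⟨x, s, t, hx, hs, ht, -, hx0, hx1, rfl⟩
      have pos2 : (0:ℝ) < (1/2)^n := by positivity
      have pos8 : (0:ℝ) < (1/8)^n := by positivity
      refine ⟨x, (1/2)^n * s, (1/8)^n * t, hx, ⟨mul_nonneg pos2.le hs.1, mul_le_of_le_one_right pos2.le hs.2⟩,
        ⟨mul_nonneg pos8.le ht.1, mul_le_of_le_one_right pos8.le ht.2⟩, ?_, hx1, ?_⟩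
      · rw [hx0, ← pw_eq n]; ring
      · simp only [ph]
        congr 1 <;> ring
    refine (measure_mono hsub).trans ((Fl_meas I n h0 h1 (by linarith) (by linarith)).trans ?_)
    rw [pow_zero, mul_one]
  | succ m ih =>
    intro n b0 b1 p0 p1 h0 h1 h0' h1'
    refine (measure_mono (SV_step I m n b0 b1 p0 p1)).trans ?_
    have m4 := sum_bd μH[(d:ℝ)] (KK d) (fun ij : Fin 2 × Fin 2 => SS I (V m) m (n+1)
        (b0 + (1/8)^n * (cen ij.1 - 1/16)) (b1 + (1/8)^n * (cen ij.2 - 1/16))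
        (p0 + (1/2)^n * (dg ij.1 / 4)) (p1 + (1/2)^n * (dg ij.2 / 4))) (c := (1/16)^(n+1) * (1/4)^m)
        4 (by simp) (by positivity)
      (fun ij => ih (n+1) _ _ _ _ (next_p n ij.1 h0 h0').1 (next_p n ij.2 h1 h1').1
        (next_p n ij.1 h0 h0').2 (next_p n ij.2 h1 h1').2)
    refine m4.trans ?_
    apply mul_le_mul' (le_refl _)
    apply ENNReal.ofReal_le_ofReal
    rw [pow_succ, pow_succ]
    push_cast
    have : (0:ℝ) ≤ (1/16)^n * (1/4)^m := by positivity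
    linarith

end Pool.Agent.W2helper13.CE
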